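import Mathlib

/-!
# Probabilistic cellular automata: basic definitions and locality
-/

open MeasureTheory ProbabilityTheory Filter Topology Set
open scoped ENNReal

namespace PCABern

set_option linter.unusedSectionVars false
set_option warn.classDefReducibility false

/-- Sites of the lattice `ℤ^d`. -/
abbrev Site (d : ℕ) := Fin d → ℤ

/-- Configurations over the alphabet `A`. -/
abbrev Config (A : Type) (d : ℕ) := Site d → A

/-- A probabilistic cellular automaton on `A^{ℤ^d}`: a finite neighbourhood and a local rule. -/
structure PCA (A : Type) [MeasurableSpace A] (d : ℕ) where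
  /-- the neighbourhood -/
  N : Finset (Site d)
  /-- the local rule -/
  rule : (N → A) → Measure A
  /-- the local rule takes values in probability distributions -/
  prob : ∀ u, IsProbabilityMeasure (rule u)

variable {A : Type} [Finite A] [Nonempty A] [MeasurableSpace A] [MeasurableSingletonClass A]
  {d : ℕ}

/-- One-step law from the configuration `x`: independent coordinates, the coordinate `i` having law
`rule (x_{i+n})_{n ∈ N}`. -/
noncomputable def PCA.step {A : Type} [MeasurableSpace A] {d : ℕ}
    (Φ : PCA A d) (x : Config A d) : Measure (Config A d) :=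
  Measure.infinitePi (fun i : Site d => Φ.rule (fun n : Φ.N => x (i + n.1)))

/-- One-step evolution of measures. -/
noncomputable def PCA.evolve {A : Type} [MeasurableSpace A] {d : ℕ}
    (Φ : PCA A d) (μ : Measure (Config A d)) : Measure (Config A d) :=
  μ.bind Φ.step

/-- The cylinder of configurations which agree with `u` on the finite window `F`. -/
def cyl {A : Type} {d : ℕ} (F : Finset (Site d)) (u : F → A) : Set (Config A d) :=
  {x | ∀ i : F, x i.1 = u i}

/-- The sigma-algebra generated by the coordinates in `S`. -/
def siteAlg (A : Type) [MeasurableSpace A] {d : ℕ} (S : Set (Site d)) :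
    MeasurableSpace (Config A d) :=
  MeasurableSpace.comap (fun (x : Config A d) (i : S) => x i.1) MeasurableSpace.pi

omit [Finite A] [Nonempty A] [MeasurableSingletonClass A] in
theorem siteAlg_le (S : Set (Site d)) :
    siteAlg A S ≤ (MeasurableSpace.pi : MeasurableSpace (Config A d)) := by
  unfold siteAlg
  refine Measurable.comap_le ?_
  exact measurable_pi_lambda _ (fun i => measurable_pi_apply i.1)

omit [Finite A] [Nonempty A] [MeasurableSingletonClass A] in
theorem siteAlg_mono {S T : Set (Site d)} (h : S ⊆ T) : siteAlg A S ≤ siteAlg A T := by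
  unfold siteAlg
  have : (fun (x : Config A d) (i : S) => x i.1)
      = (fun (y : T → A) (i : S) => y ⟨i.1, h i.2⟩) ∘ (fun (x : Config A d) (i : T) => x i.1) := by
    funext x i; rfl
  rw [this, ← MeasurableSpace.comap_comp]
  refine MeasurableSpace.comap_mono ?_
  refine Measurable.comap_le ?_
  exact measurable_pi_lambda _ (fun i => measurable_pi_apply _)

omit [Finite A] [Nonempty A] [MeasurableSingletonClass A] in
theorem siteAlg_eq_iSup (S : Set (Site d)) :
    siteAlg A S = ⨆ i ∈ S, MeasurableSpace.comap (fun x : Config A d => x i) inferInstance := by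
  unfold siteAlg MeasurableSpace.pi
  rw [MeasurableSpace.comap_iSup, iSup_subtype]
  refine iSup_congr fun i => iSup_congr fun hi => ?_
  rw [MeasurableSpace.comap_comp]
  rfl

instance (Φ : PCA A d) (u) : IsProbabilityMeasure (Φ.rule u) := Φ.prob u

omit [Finite A] [Nonempty A] [MeasurableSingletonClass A] in
theorem indep_siteAlg (P : Site d → Measure A) [∀ i, IsProbabilityMeasure (P i)]
    {S T : Set (Site d)} (h : Disjoint S T) :
    Indep (siteAlg A S) (siteAlg A T) (Measure.infinitePi P) := by
  rw [siteAlg_eq_iSup, siteAlg_eq_iSup]
  refine indep_iSup_of_disjoint ?_ ?_ h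
  · intro i
    exact (measurable_pi_apply i).comap_le
  · have := iIndepFun_infinitePi (P := P) (X := fun (_ : Site d) (a : A) => a)
      (fun _ => measurable_id)
    exact this

/-- Measurable and depends only on `S` implies measurable for `siteAlg`. -/
theorem measurable_siteAlg_of_dependsOn {β : Type*} [MeasurableSpace β] {g : Config A d → β}
    (hg : Measurable g) {S : Set (Site d)}
    (hS : ∀ x y : Config A d, (∀ i ∈ S, x i = y i) → g x = g y) :
    Measurable[siteAlg A S] g := by
  classical
  obtain ⟨a⟩ := ‹Nonempty A›
  let ext : (S → A) → Config A d := fun z i => if h : i ∈ S then z ⟨i, h⟩ else a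
  have hext : Measurable ext := by
    refine measurable_pi_lambda _ (fun i => ?_)
    by_cases h : i ∈ S
    · simp only [ext, h, dif_pos]
      exact measurable_pi_apply _
    · simp only [ext, h, dif_neg, not_false_iff]
      exact measurable_const
  have heq : g = (g ∘ ext) ∘ (fun (x : Config A d) (i : S) => x i.1) := by
    funext x
    refine hS _ _ (fun i hi => ?_)
    simp [ext, hi]
  rw [heq]
  exact (hg.comp hext).comp (comap_measurable _)

/-- For a function which depends only on `S`, the integral against a product measure only depends
on the marginals in `S`. -/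
theorem lintegral_infinitePi_congr {P Q : Site d → Measure A}
    [∀ i, IsProbabilityMeasure (P i)] [∀ i, IsProbabilityMeasure (Q i)]
    {g : Config A d → ℝ≥0∞} {S : Set (Site d)}
    (hg : Measurable[siteAlg A S] g) (h : ∀ i ∈ S, P i = Q i) :
    ∫⁻ x, g x ∂(Measure.infinitePi P) = ∫⁻ x, g x ∂(Measure.infinitePi Q) := by
  obtain ⟨g', hg', rfl⟩ := hg.exists_eq_measurable_comp
  have hm : Measurable (fun (x : Config A d) (i : S) => x i.1) :=
    measurable_pi_lambda _ (fun i => measurable_pi_apply i.1)
  have e1 : ∀ R : Site d → Measure A, ∀ _ : (∀ i, IsProbabilityMeasure (R i)),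
      ∫⁻ x, (g' ∘ (fun (x : Config A d) (i : S) => x i.1)) x ∂(Measure.infinitePi R)
      = ∫⁻ z, g' z ∂(Measure.infinitePi (fun i : S => R i.1)) := by
    intro R _
    rw [← Measure.map_infinitePi_infinitePi_of_inj (P := R) (f := fun i : S => i.1)
      Subtype.val_injective]
    rw [lintegral_map hg' hm]
    rfl
  rw [e1 P inferInstance, e1 Q inferInstance]
  have : (fun i : S => P i.1) = (fun i : S => Q i.1) := by
    funext i
    exact h i.1 i.2
  simp only [this]

omit [Nonempty A] in
theorem measurable_step (Φ : PCA A d) : Measurable Φ.step := by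
  have hI : ∀ x, IsProbabilityMeasure (Φ.step x) := fun x => by unfold PCA.step; infer_instance
  refine Measurable.measure_of_isPiSystem_of_isProbabilityMeasure
    (S := squareCylinders (fun _ : Site d => {s : Set A | MeasurableSet s}))
    (generateFrom_squareCylinders).symm ?_ ?_
  · exact isPiSystem_squareCylinders (fun _ => MeasurableSpace.isPiSystem_measurableSet)
      (fun _ => MeasurableSet.univ)
  · rintro s hs
    obtain ⟨F, t, ht, rfl⟩ := hs
    have : ∀ x, Φ.step x (Set.pi (F : Set (Site d)) t)
        = ∏ i ∈ F, Φ.rule (fun n : Φ.N => x (i + n.1)) (t i) := by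
      intro x
      unfold PCA.step
      exact Measure.infinitePi_pi _ (fun i _ => ht i (Set.mem_univ _))
    simp only [this]
    refine Finset.measurable_prod _ (fun i _ => ?_)
    have h1 : Measurable (fun x : Config A d => (fun n : Φ.N => x (i + n.1))) :=
      measurable_pi_lambda _ (fun n => measurable_pi_apply _)
    have h2 : Measurable (fun u : Φ.N → A => Φ.rule u (t i)) := measurable_of_finite _
    exact h2.comp h1

end PCABern
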