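import Pool.Agent.Lib.MP_91598f_pr.Final

/-!
# The `d`-bar (transport) distance on a window, in its dual form
-/

open MeasureTheory ProbabilityTheory Filter Topology Set
open scoped ENNReal

namespace PCABern

set_option linter.unusedSectionVars false

open Classical in
/-- The number of sites of the window `W` at which the configurations `x` and `y` differ. -/
noncomputable def dis {A : Type} {d : ℕ} (W : Finset (Site d)) (x y : Config A d) : ℝ :=
  ((W.filter (fun i => x i ≠ y i)).card : ℝ)

/-- `F` is 1-Lipschitz for the number of disagreements in the window `W`. -/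
def HamLip {A : Type} {d : ℕ} (W : Finset (Site d)) (F : Config A d → ℝ) : Prop :=
  ∀ x y : Config A d, F x - F y ≤ dis W x y

/-- The transport distance of two laws on the window `W` for the number of disagreements
(not normalised), in its Kantorovich dual form. -/
noncomputable def dbar {A : Type} [MeasurableSpace A] {d : ℕ} (W : Finset (Site d))
    (μ ν : Measure (Config A d)) : ℝ :=
  sSup {r : ℝ | ∃ F : Config A d → ℝ, HamLip W F ∧ r = ∫ x, F x ∂μ - ∫ x, F x ∂ν}

section dis

variable {A : Type} {d : ℕ}

theorem dis_nonneg (W : Finset (Site d)) (x y : Config A d) : 0 ≤ dis W x y := by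
  unfold dis; positivity

theorem dis_le_card (W : Finset (Site d)) (x y : Config A d) : dis W x y ≤ W.card := by
  classical
  unfold dis
  exact_mod_cast Finset.card_filter_le _ _

theorem dis_le_of {W V : Finset (Site d)} {x y x' y' : Config A d}
    (h : ∀ i ∈ W, x i ≠ y i → i ∈ V ∧ x' i ≠ y' i) : dis W x y ≤ dis V x' y' := by
  classical
  unfold dis
  norm_cast
  refine Finset.card_le_card (fun i hi => ?_)
  simp only [Finset.mem_filter] at hi ⊢
  exact h i hi.1 hi.2

theorem dis_comm (W : Finset (Site d)) (x y : Config A d) : dis W x y = dis W y x :=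
  le_antisymm (dis_le_of fun _ hi hne => ⟨hi, hne.symm⟩)
    (dis_le_of fun _ hi hne => ⟨hi, hne.symm⟩)

theorem dis_mono {W V : Finset (Site d)} (h : V ⊆ W) (x y : Config A d) :
    dis V x y ≤ dis W x y :=
  dis_le_of (fun i hi hne => ⟨h hi, hne⟩)

theorem dis_eq_zero {W : Finset (Site d)} {x y : Config A d} (h : ∀ i ∈ W, x i = y i) :
    dis W x y = 0 := by
  classical
  unfold dis
  norm_cast
  rw [Finset.card_eq_zero, Finset.filter_eq_empty_iff]
  intro i hi hne
  exact hne (h i hi)

theorem HamLip.mono {W V : Finset (Site d)} (h : V ⊆ W) {F : Config A d → ℝ} (hF : HamLip V F) :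
    HamLip W F := fun x y => (hF x y).trans (dis_mono h x y)

theorem HamLip.dep {W : Finset (Site d)} {F : Config A d → ℝ} (hF : HamLip W F)
    {x y : Config A d} (h : ∀ i ∈ W, x i = y i) : F x = F y := by
  have h1 := hF x y
  have h2 := hF y x
  rw [dis_eq_zero h] at h1
  rw [dis_eq_zero (fun i hi => (h i hi).symm)] at h2
  linarith

theorem HamLip.abs_le {W : Finset (Site d)} {F : Config A d → ℝ} (hF : HamLip W F)
    (x y : Config A d) : |F x - F y| ≤ W.card := by
  have h1 := (hF x y).trans (dis_le_card W x y)
  have h2 := (hF y x).trans (dis_le_card W y x)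
  rw [_root_.abs_le]
  constructor <;> linarith

theorem HamLip.neg {W : Finset (Site d)} {F : Config A d → ℝ} (hF : HamLip W F) :
    HamLip W (fun x => -F x) := by
  intro x y
  have := hF y x
  rw [dis_comm] at this
  linarith

theorem hamLip_zero (W : Finset (Site d)) : HamLip W (fun _ : Config A d => (0 : ℝ)) := by
  intro x y
  simpa using dis_nonneg W x y

end dis

variable {A : Type} [Finite A] [Nonempty A] [MeasurableSpace A] [MeasurableSingletonClass A]
  {d : ℕ}

/-- A function of finitely many coordinates is measurable for their sigma-algebra. -/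
theorem measurable_of_dep {β : Type*} [MeasurableSpace β] {S : Set (Site d)} (hS : S.Finite)
    {g : Config A d → β} (h : ∀ x y : Config A d, (∀ i ∈ S, x i = y i) → g x = g y) :
    Measurable[siteAlg A S] g := by
  classical
  have : Finite S := hS
  obtain ⟨a⟩ := ‹Nonempty A›
  let ext : (S → A) → Config A d := fun z i => if h : i ∈ S then z ⟨i, h⟩ else a
  have heq : g = (g ∘ ext) ∘ (fun (x : Config A d) (i : S) => x i.1) := by
    funext x
    refine h _ _ (fun i hi => ?_)
    simp [ext, hi]
  rw [heq]
  exact (measurable_of_finite (g ∘ ext)).comp (comap_measurable _)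

theorem HamLip.measurable' {W : Finset (Site d)} {F : Config A d → ℝ} (hF : HamLip W F) :
    Measurable[siteAlg A (W : Set (Site d))] F :=
  measurable_of_dep W.finite_toSet (fun _ _ h => hF.dep (fun i hi => h i hi))

theorem HamLip.measurable {W : Finset (Site d)} {F : Config A d → ℝ} (hF : HamLip W F) :
    Measurable F := hF.measurable'.mono (siteAlg_le _) le_rfl

theorem HamLip.exists_bound {W : Finset (Site d)} {F : Config A d → ℝ} (hF : HamLip W F) :
    ∃ C : ℝ, ∀ x, |F x| ≤ C := by
  obtain ⟨a⟩ := ‹Nonempty A›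
  refine ⟨|F (fun _ => a)| + W.card, fun x => ?_⟩
  have h1 := hF.abs_le x (fun _ => a)
  have h2 : |F x| ≤ |F x - F (fun _ => a)| + |F (fun _ => a)| := by
    have := abs_add_le (F x - F (fun _ => a)) (F (fun _ => a))
    simpa using this
  linarith

theorem HamLip.integrable {W : Finset (Site d)} {F : Config A d → ℝ} (hF : HamLip W F)
    (μ : Measure (Config A d)) [IsFiniteMeasure μ] : Integrable F μ := by
  obtain ⟨C, hC⟩ := hF.exists_bound
  exact Integrable.of_bound hF.measurable.aestronglyMeasurable C
    (Eventually.of_forall fun x => hC x)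

theorem integral_sub_le_card {W : Finset (Site d)} {F : Config A d → ℝ} (hF : HamLip W F)
    (μ ν : Measure (Config A d)) [IsProbabilityMeasure μ] [IsProbabilityMeasure ν] :
    ∫ x, F x ∂μ - ∫ x, F x ∂ν ≤ 2 * W.card := by
  obtain ⟨a⟩ := ‹Nonempty A›
  have h1 : ∫ x, F x ∂μ ≤ ∫ _x, (F (fun _ => a) + W.card) ∂μ := by
    refine integral_mono (hF.integrable μ) (integrable_const _) (fun x => ?_)
    have := (abs_le.1 (hF.abs_le x (fun _ => a))).2
    linarith
  have h2 : ∫ _x, (F (fun _ => a) - W.card) ∂ν ≤ ∫ x, F x ∂ν := by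
    refine integral_mono (integrable_const _) (hF.integrable ν) (fun x => ?_)
    have := (abs_le.1 (hF.abs_le x (fun _ => a))).1
    simp only
    linarith
  simp only [integral_const, probReal_univ, smul_eq_mul, one_mul] at h1 h2
  linarith

theorem bddAbove_dbar (W : Finset (Site d)) (μ ν : Measure (Config A d))
    [IsProbabilityMeasure μ] [IsProbabilityMeasure ν] :
    BddAbove {r : ℝ | ∃ F : Config A d → ℝ, HamLip W F ∧ r = ∫ x, F x ∂μ - ∫ x, F x ∂ν} := by
  refine ⟨2 * W.card, ?_⟩
  rintro r ⟨F, hF, rfl⟩
  exact integral_sub_le_card hF μ ν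

theorem le_dbar {W : Finset (Site d)} {F : Config A d → ℝ} (hF : HamLip W F)
    (μ ν : Measure (Config A d)) [IsProbabilityMeasure μ] [IsProbabilityMeasure ν] :
    ∫ x, F x ∂μ - ∫ x, F x ∂ν ≤ dbar W μ ν :=
  le_csSup (bddAbove_dbar W μ ν) ⟨F, hF, rfl⟩

omit [Finite A] [Nonempty A] [MeasurableSingletonClass A] in
theorem dbar_le {W : Finset (Site d)} {μ ν : Measure (Config A d)} {c : ℝ}
    (h : ∀ F : Config A d → ℝ, HamLip W F → ∫ x, F x ∂μ - ∫ x, F x ∂ν ≤ c) :
    dbar W μ ν ≤ c := by
  refine csSup_le ⟨0, fun _ => 0, hamLip_zero W, by simp⟩ ?_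
  rintro r ⟨F, hF, rfl⟩
  exact h F hF

theorem dbar_nonneg (W : Finset (Site d)) (μ ν : Measure (Config A d))
    [IsProbabilityMeasure μ] [IsProbabilityMeasure ν] : 0 ≤ dbar W μ ν := by
  have := le_dbar (hamLip_zero W) μ ν
  simpa using this

theorem dbar_le_card (W : Finset (Site d)) (μ ν : Measure (Config A d))
    [IsProbabilityMeasure μ] [IsProbabilityMeasure ν] : dbar W μ ν ≤ 2 * W.card :=
  dbar_le (fun _ hF => integral_sub_le_card hF μ ν)

theorem dbar_symm (W : Finset (Site d)) (μ ν : Measure (Config A d))
    [IsProbabilityMeasure μ] [IsProbabilityMeasure ν] : dbar W μ ν ≤ dbar W ν μ := by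
  refine dbar_le (fun F hF => ?_)
  have := le_dbar hF.neg ν μ
  simp only [integral_neg] at this
  linarith

theorem dbar_triangle (W : Finset (Site d)) (μ ν ρ : Measure (Config A d))
    [IsProbabilityMeasure μ] [IsProbabilityMeasure ν] [IsProbabilityMeasure ρ] :
    dbar W μ ρ ≤ dbar W μ ν + dbar W ν ρ := by
  refine dbar_le (fun F hF => ?_)
  have h1 := le_dbar hF μ ν
  have h2 := le_dbar hF ν ρ
  linarith

theorem dbar_mono {W V : Finset (Site d)} (h : V ⊆ W) (μ ν : Measure (Config A d))
    [IsProbabilityMeasure μ] [IsProbabilityMeasure ν] : dbar V μ ν ≤ dbar W μ ν :=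
  dbar_le (fun _ hF => le_dbar (hF.mono h) μ ν)

/-- Cutting a Lipschitz function down to a smaller window. -/
theorem HamLip.cut {W V : Finset (Site d)} (h : V ⊆ W) {F : Config A d → ℝ} (hF : HamLip W F) :
    ∃ F' : Config A d → ℝ, HamLip V F' ∧ ∀ x, |F x - F' x| ≤ ((W \ V).card : ℝ) := by
  classical
  obtain ⟨a⟩ := ‹Nonempty A›
  refine ⟨fun x => F (fun i => if i ∈ V then x i else a), ?_, ?_⟩
  · intro x y
    refine (hF _ _).trans (dis_le_of ?_)
    intro i _ hne
    by_cases hi : i ∈ V
    · simp only [hi, if_true] at hne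
      exact ⟨hi, hne⟩
    · simp [hi] at hne
  · intro x
    have h1 : ∀ y z : Config A d, (∀ i ∈ V, y i = z i) → F y - F z ≤ ((W \ V).card : ℝ) := by
      intro y z hyz
      refine (hF _ _).trans ?_
      unfold dis
      norm_cast
      refine Finset.card_le_card (fun i hi => ?_)
      simp only [Finset.mem_filter, Finset.mem_sdiff] at hi ⊢
      exact ⟨hi.1, fun hV => hi.2 (hyz i hV)⟩
    rw [_root_.abs_le]
    have h2 := h1 x (fun i => if i ∈ V then x i else a) (fun i hi => by simp [hi])
    have h3 := h1 (fun i => if i ∈ V then x i else a) x (fun i hi => by simp [hi])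
    constructor <;> linarith

theorem dbar_le_add_card {W V : Finset (Site d)} (h : V ⊆ W) (μ ν : Measure (Config A d))
    [IsProbabilityMeasure μ] [IsProbabilityMeasure ν] :
    dbar W μ ν ≤ dbar V μ ν + 2 * ((W \ V).card : ℝ) := by
  refine dbar_le (fun F hF => ?_)
  obtain ⟨F', hF', hc⟩ := hF.cut h
  have h1 := le_dbar hF' μ ν
  have h2 : ∫ x, F x ∂μ ≤ ∫ x, (F' x + ((W \ V).card : ℝ)) ∂μ := by
    refine integral_mono (hF.integrable μ) ((hF'.integrable μ).add (integrable_const _))
      (fun x => ?_)
    have := (abs_le.1 (hc x)).2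
    simp only
    linarith
  have h3 : ∫ x, (F' x - ((W \ V).card : ℝ)) ∂ν ≤ ∫ x, F x ∂ν := by
    refine integral_mono ((hF'.integrable ν).sub (integrable_const _)) (hF.integrable ν)
      (fun x => ?_)
    have := (abs_le.1 (hc x)).1
    simp only
    linarith
  rw [integral_add (hF'.integrable μ) (integrable_const _)] at h2
  rw [integral_sub (hF'.integrable ν) (integrable_const _)] at h3
  simp only [integral_const, probReal_univ, smul_eq_mul, one_mul] at h2 h3
  linarith

/-- The events of the two windows are independent under `μ`. -/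
def WinIndep {A : Type} [MeasurableSpace A] {d : ℕ} (Q R : Set (Site d))
    (μ : Measure (Config A d)) : Prop :=
  ∀ E F : Set (Config A d), MeasurableSet[siteAlg A Q] E → MeasurableSet[siteAlg A R] F →
    μ (E ∩ F) = μ E * μ F

theorem integral_indep {Q R : Finset (Site d)} (μ : Measure (Config A d))
    [IsProbabilityMeasure μ] (hμ : WinIndep (Q : Set (Site d)) (R : Set (Site d)) μ)
    {F : Config A d → ℝ} (hF : HamLip (Q ∪ R) F) :
    ∫ x, F x ∂μ = ∫ u, ∫ w, F (Q.piecewise u w) ∂μ ∂μ := by
  classical
  obtain ⟨a⟩ := ‹Nonempty A›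
  let f : Config A d → (Q → A) := fun x i => x i.1
  let g : Config A d → (R → A) := fun x i => x i.1
  have hf : Measurable f := measurable_pi_lambda _ (fun i => measurable_pi_apply i.1)
  have hg : Measurable g := measurable_pi_lambda _ (fun i => measurable_pi_apply i.1)
  let H : (Q → A) × (R → A) → ℝ := fun p => F (fun i =>
    if h : i ∈ Q then p.1 ⟨i, h⟩ else if h' : i ∈ R then p.2 ⟨i, h'⟩ else a)
  have hH : Measurable H := measurable_of_finite H
  obtain ⟨C, hC⟩ := hF.exists_bound
  have hind : IndepFun f g μ := by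
    rw [indepFun_iff_measure_inter_preimage_eq_mul]
    intro s t hs ht
    exact hμ _ _ ⟨s, hs, rfl⟩ ⟨t, ht, rfl⟩
  have hmap := hind.map_prod_eq_prod_map_map hf.aemeasurable hg.aemeasurable
  rw [Measure.map_prod_map μ μ hf hg] at hmap
  have e1 : ∫ x, F x ∂μ = ∫ p, H p ∂(μ.map (fun x => (f x, g x))) := by
    rw [integral_map (hf.prodMk hg).aemeasurable hH.aestronglyMeasurable]
    refine integral_congr_ae (Eventually.of_forall fun x => ?_)
    refine hF.dep (fun i hi => ?_)
    simp only [f, g]
    by_cases h1 : i ∈ Q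
    · simp [h1]
    · have h2 : i ∈ R := by simpa [h1] using hi
      simp [h1, h2]
  have e2 : ∫ p, H p ∂((μ.prod μ).map (Prod.map f g)) = ∫ p : Config A d × Config A d,
      F (Q.piecewise p.1 p.2) ∂(μ.prod μ) := by
    rw [integral_map (hf.prodMap hg).aemeasurable hH.aestronglyMeasurable]
    refine integral_congr_ae (Eventually.of_forall fun p => ?_)
    refine hF.dep (fun i hi => ?_)
    simp only [f, g, Prod.map]
    by_cases h1 : i ∈ Q
    · simp [h1]
    · have h2 : i ∈ R := by simpa [h1] using hi
      simp [h1, h2]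
  rw [e1, hmap, e2, integral_prod]
  refine Integrable.of_bound ?_ C (Eventually.of_forall fun p => hC _)
  have : (fun p : Config A d × Config A d => F (Q.piecewise p.1 p.2))
      = H ∘ (Prod.map f g) := by
    funext p
    refine hF.dep (fun i hi => ?_)
    simp only [f, g, Prod.map]
    by_cases h1 : i ∈ Q
    · simp [h1]
    · have h2 : i ∈ R := by simpa [h1] using hi
      simp [h1, h2]
  rw [this]
  exact (hH.comp (hf.prodMap hg)).aestronglyMeasurable

/-- Subadditivity of the transport distance over independent windows. -/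
theorem dbar_union {Q R : Finset (Site d)} (μ ν : Measure (Config A d))
    [IsProbabilityMeasure μ] [IsProbabilityMeasure ν]
    (hμ : WinIndep (Q : Set (Site d)) (R : Set (Site d)) μ)
    (hν : WinIndep (Q : Set (Site d)) (R : Set (Site d)) ν) :
    dbar (Q ∪ R) μ ν ≤ dbar Q μ ν + dbar R μ ν := by
  classical
  refine dbar_le (fun F hF => ?_)
  rw [integral_indep μ hμ hF, integral_indep ν hν hF]
  have hw : ∀ u : Config A d, HamLip R (fun w => F (Q.piecewise u w)) := by
    intro u x y
    refine (hF _ _).trans (dis_le_of ?_)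
    intro i hi hne
    by_cases h1 : i ∈ Q
    · simp [h1] at hne
    · simp only [Finset.piecewise_eq_of_notMem _ _ _ h1] at hne
      exact ⟨by simpa [h1] using hi, hne⟩
  have hu : ∀ w : Config A d, HamLip Q (fun u => F (Q.piecewise u w)) := by
    intro w x y
    refine (hF _ _).trans (dis_le_of ?_)
    intro i hi hne
    by_cases h1 : i ∈ Q
    · simp only [Finset.piecewise_eq_of_mem _ _ _ h1] at hne
      exact ⟨h1, hne⟩
    · simp [h1] at hne
  have hG : ∀ ρ : Measure (Config A d), IsProbabilityMeasure ρ →
      HamLip Q (fun u => ∫ w, F (Q.piecewise u w) ∂ρ) := by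
    intro ρ _ x y
    have h1 : ∫ w, F (Q.piecewise x w) ∂ρ ≤ ∫ w, (F (Q.piecewise y w) + dis Q x y) ∂ρ := by
      refine integral_mono ((hw x).integrable ρ) (((hw y).integrable ρ).add (integrable_const _))
        (fun w => ?_)
      have := hu w x y
      simp only
      linarith
    rw [integral_add ((hw y).integrable ρ) (integrable_const _)] at h1
    simp only [integral_const, probReal_univ, smul_eq_mul, one_mul] at h1
    simp only
    linarith
  have h1 : ∫ u, (∫ w, F (Q.piecewise u w) ∂μ) ∂μ
      ≤ ∫ u, ((∫ w, F (Q.piecewise u w) ∂ν) + dbar R μ ν) ∂μ := by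
    refine integral_mono ((hG μ inferInstance).integrable μ)
      (((hG ν inferInstance).integrable μ).add (integrable_const _)) (fun u => ?_)
    have := le_dbar (hw u) μ ν
    simp only
    linarith
  rw [integral_add ((hG ν inferInstance).integrable μ) (integrable_const _)] at h1
  simp only [integral_const, probReal_univ, smul_eq_mul, one_mul] at h1
  have h2 := le_dbar (hG ν inferInstance) μ ν
  linarith

theorem dbar_shift_le {W W' : Finset (Site d)} (v : Site d) (h : ∀ i ∈ W', i - v ∈ W)
    (μ ν : Measure (Config A d)) [IsProbabilityMeasure μ] [IsProbabilityMeasure ν] :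
    dbar W' μ ν ≤ dbar W (μ.map (shift v)) (ν.map (shift v)) := by
  classical
  have := Measure.isProbabilityMeasure_map (μ := μ) (measurable_shift (A := A) v).aemeasurable
  have := Measure.isProbabilityMeasure_map (μ := ν) (measurable_shift (A := A) v).aemeasurable
  refine dbar_le (fun F hF => ?_)
  have hF' : HamLip W (fun x => F (shift (-v) x)) := by
    intro x y
    refine (hF _ _).trans ?_
    unfold dis
    norm_cast
    refine Finset.card_le_card_of_injOn (fun i => i - v) ?_ (fun i _ j _ hij => by simpa using hij)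
    intro i hi
    rw [Finset.mem_coe, Finset.mem_filter] at hi
    rw [Finset.mem_coe, Finset.mem_filter]
    refine ⟨h i hi.1, ?_⟩
    have h2 := hi.2
    simp only [shift] at h2
    simp only [sub_eq_add_neg]
    exact h2
  have e : ∀ ρ : Measure (Config A d), ∫ x, F (shift (-v) x) ∂(ρ.map (shift v)) = ∫ x, F x ∂ρ := by
    intro ρ
    rw [integral_map (measurable_shift v).aemeasurable hF'.measurable.aestronglyMeasurable]
    refine integral_congr_ae (Eventually.of_forall fun x => ?_)
    simp only
    congr 1
    funext i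
    simp [shift]
  have := le_dbar hF' (μ.map (shift v)) (ν.map (shift v))
  rw [e, e] at this
  exact this

end PCABern
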