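import Pool.Agent.Lib.MP_91598f_pr.Relax

/-!
# The relaxation dichotomy: definitions and statement
-/

open MeasureTheory ProbabilityTheory Filter Topology Set
open scoped ENNReal

namespace PCABern

set_option linter.unusedSectionVars false
set_option linter.unusedVariables false

/-- The transport distance, on the cube `{0, …, n-1}^d`, between the law at time `t` of the PCA
started from the configuration `x`, and `π`. -/
noncomputable def PCA.gap {A : Type} [MeasurableSpace A] {d : ℕ} (Φ : PCA A d)
    (π : Measure (Config A d)) (n t : ℕ) (x : Config A d) : ℝ :=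
  dbar (box d n) (Φ.evolve^[t] (Measure.dirac x)) π

/-- Linear lower bound for the relaxation time, on average over the initial configuration. -/
def PCA.SlowMean {A : Type} [MeasurableSpace A] {d : ℕ} (Φ : PCA A d)
    (π : Measure (Config A d)) : Prop :=
  ∃ ε : ℝ, 0 < ε ∧ ∀ n t : ℕ, 0 < n → (t : ℝ) ≤ ε * n →
    ε * (n : ℝ) ^ d < ∫ x, Φ.gap π n t x ∂π

/-- Relaxation in bounded time, on average over the initial configuration. -/
def PCA.FastMean {A : Type} [MeasurableSpace A] {d : ℕ} (Φ : PCA A d)
    (π : Measure (Config A d)) : Prop :=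
  ∀ ε : ℝ, 0 < ε → ∃ t n₀ : ℕ, ∀ n, n₀ ≤ n → ∫ x, Φ.gap π n t x ∂π ≤ ε * (n : ℝ) ^ d

/-- Linear lower bound for the relaxation time from the worst initial configuration in the
support of `π`. -/
def PCA.SlowSupp {A : Type} [MeasurableSpace A] {d : ℕ} (Φ : PCA A d)
    (π : Measure (Config A d)) : Prop :=
  ∃ ε : ℝ, 0 < ε ∧ ∀ n t : ℕ, 0 < n → (t : ℝ) ≤ ε * n →
    ∃ x, InSupp π x ∧ ε * (n : ℝ) ^ d < Φ.gap π n t x

/-- Relaxation in bounded time, uniformly in the initial configuration in the support of `π`. -/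
def PCA.FastSupp {A : Type} [MeasurableSpace A] {d : ℕ} (Φ : PCA A d)
    (π : Measure (Config A d)) : Prop :=
  ∀ ε : ℝ, 0 < ε → ∃ t n₀ : ℕ, ∀ n, n₀ ≤ n → ∀ x, InSupp π x →
    Φ.gap π n t x ≤ ε * (n : ℝ) ^ d

/-- Very weak Bernoulli, conditionally on the whole outside of a large cube: for every finite
family of disjoint events of the outside, the conditional laws are on average close to `π` on the
cube. -/
def VeryWeakBernoulli {A : Type} [MeasurableSpace A] {d : ℕ} (π : Measure (Config A d)) : Prop :=
  ∀ ε : ℝ, 0 < ε → ∃ n₀ : ℕ, ∀ n, n₀ ≤ n → ∀ (k : ℕ) (B : Fin k → Set (Config A d)),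
    (∀ i, MeasurableSet[siteAlg A {i : Site d | i ∉ box d n}] (B i)) →
    Pairwise (Function.onFun Disjoint B) →
    ∑ i, (π (B i)).toReal * dbar (box d n) (cond π (B i)) π ≤ ε * (n : ℝ) ^ d

/-- Uniform version: the conditional law given any event of the outside of a large cube is close
to `π` on the cube. -/
def UniformlyVeryWeakBernoulli {A : Type} [MeasurableSpace A] {d : ℕ}
    (π : Measure (Config A d)) : Prop :=
  ∀ ε : ℝ, 0 < ε → ∃ n₀ : ℕ, ∀ n, n₀ ≤ n → ∀ B : Set (Config A d),
    MeasurableSet[siteAlg A {i : Site d | i ∉ box d n}] B → π B ≠ 0 →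
    dbar (box d n) (cond π B) π ≤ ε * (n : ℝ) ^ d

variable {A : Type} [Finite A] [Nonempty A] [MeasurableSpace A] [MeasurableSingletonClass A]
  {d : ℕ}

theorem gap_eq (Φ : PCA A d) (π : Measure (Config A d)) (n t : ℕ) (x : Config A d) :
    Φ.gap π n t x = dbar (box d n) (Φ.K t x) π := by
  unfold PCA.gap
  rw [K_eq_evolve]

theorem mean_dichotomy {Φ : PCA A d} {π : Measure (Config A d)} (h : Φ.Ergodic π) :
    Φ.SlowMean π ∨ (Φ.FastMean π ∧ VeryWeakBernoulli π) := by
  have hp : IsProbabilityMeasure π := h.1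
  have hinv : Φ.evolve π = π := h.2.1
  have hshift : ∀ v : Site d, π.map (shift v) = π := fun v => shift_invariant h v
  by_cases hs : Φ.SlowMean π
  · exact Or.inl hs
  · right
    unfold PCA.SlowMean at hs
    push Not at hs
    simp only [gap_eq] at hs
    have H := relax_avg hinv hshift hs
    refine ⟨?_, vwb_avg hinv H⟩
    unfold PCA.FastMean
    simp only [gap_eq]
    exact H

theorem supp_dichotomy {Φ : PCA A d} {π : Measure (Config A d)} (h : Φ.Ergodic π) :
    Φ.SlowSupp π ∨ (Φ.FastSupp π ∧ UniformlyVeryWeakBernoulli π) := by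
  have hp : IsProbabilityMeasure π := h.1
  have hinv : Φ.evolve π = π := h.2.1
  have hshift : ∀ v : Site d, π.map (shift v) = π := fun v => shift_invariant h v
  by_cases hs : Φ.SlowSupp π
  · exact Or.inl hs
  · right
    unfold PCA.SlowSupp at hs
    push Not at hs
    simp only [gap_eq] at hs
    have H := relax_supp hinv hshift hs
    refine ⟨?_, vwb_supp hinv H⟩
    unfold PCA.FastSupp
    simp only [gap_eq]
    exact H

end PCABern
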