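import Pool.Agent.Lib.MP_91598f_pr.Mix

open MeasureTheory ProbabilityTheory Filter Topology Set
open scoped ENNReal symmDiff

namespace PCABern

set_option linter.unusedSectionVars false
set_option warn.classDefReducibility false

variable {A : Type} [Finite A] [Nonempty A] [MeasurableSpace A] [MeasurableSingletonClass A]
  {d : ℕ}

theorem abs_measure_sub_le (π : Measure (Config A d)) [IsProbabilityMeasure π]
    (E E' : Set (Config A d)) :
    |(π E).toReal - (π E').toReal| ≤ (π (E ∆ E')).toReal := by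
  have h1 : (π E).toReal ≤ (π E').toReal + (π (E ∆ E')).toReal := by
    rw [← ENNReal.toReal_add (measure_ne_top _ _) (measure_ne_top _ _)]
    refine ENNReal.toReal_mono (ENNReal.add_ne_top.2 ⟨measure_ne_top _ _, measure_ne_top _ _⟩) ?_
    refine (measure_mono ?_).trans (measure_union_le _ _)
    intro x hx
    by_cases hx' : x ∈ E'
    · exact Or.inl hx'
    · exact Or.inr (Or.inl ⟨hx, hx'⟩)
  have h2 : (π E').toReal ≤ (π E).toReal + (π (E ∆ E')).toReal := by
    rw [← ENNReal.toReal_add (measure_ne_top _ _) (measure_ne_top _ _)]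
    refine ENNReal.toReal_mono (ENNReal.add_ne_top.2 ⟨measure_ne_top _ _, measure_ne_top _ _⟩) ?_
    refine (measure_mono ?_).trans (measure_union_le _ _)
    intro x hx
    by_cases hx' : x ∈ E
    · exact Or.inl hx'
    · exact Or.inr (Or.inr ⟨hx, hx'⟩)
  rw [abs_le]
  constructor <;> linarith

/-- Approximation by window events. -/
theorem approx_window (π : Measure (Config A d)) [IsProbabilityMeasure π] (E : Set (Config A d))
    (hE : MeasurableSet E) (ε : ℝ) (hε : 0 < ε) :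
    ∃ (F : Finset (Site d)) (C : Set (Config A d)),
      MeasurableSet[siteAlg A (F : Set (Site d))] C ∧ (π (E ∆ C)).toReal ≤ ε := by
  have hd : π.MeasureDense (measurableCylinders (fun _ : Site d => A)) :=
    Measure.MeasureDense.of_generateFrom_isSetAlgebra_finite π isSetAlgebra_measurableCylinders
      generateFrom_measurableCylinders.symm
  obtain ⟨C, hC, hlt⟩ := hd.approx E hE (measure_ne_top _ _) ε hε
  obtain ⟨F, S, hS, rfl⟩ := (mem_measurableCylinders C).1 hC
  refine ⟨F, _, ⟨S, hS, rfl⟩, ?_⟩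
  have := (ENNReal.toReal_lt_toReal (measure_ne_top _ _) ENNReal.ofReal_ne_top).2 hlt
  rw [ENNReal.toReal_ofReal hε.le] at this
  exact this.le

/-- Short range correlations. -/
theorem short_range {Φ : PCA A d} {π : Measure (Config A d)} (h : Φ.Ergodic π)
    {E : Set (Config A d)} (hE : MeasurableSet E) (ε : ℝ) (hε : 0 < ε) :
    ∃ R : ℝ, ∀ B : Set (Config A d), MeasurableSet[farAlg A d R] B →
      |(π (E ∩ B)).toReal - (π E).toReal * (π B).toReal| ≤ ε := by
  have hp : IsProbabilityMeasure π := h.1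
  obtain ⟨F, C, hC, hCE⟩ := approx_window π E hE (ε / 3) (by positivity)
  obtain ⟨R, hR⟩ := short_range_window h hC (ε / 3) (by positivity)
  refine ⟨R, fun B hB => ?_⟩
  have h1 := hR B hB
  have h2 : |(π (E ∩ B)).toReal - (π (C ∩ B)).toReal| ≤ ε / 3 := by
    refine (abs_measure_sub_le π _ _).trans (le_trans ?_ hCE)
    refine ENNReal.toReal_mono (measure_ne_top _ _) (measure_mono ?_)
    rintro x (⟨⟨h1, h2⟩, h3⟩ | ⟨⟨h1, h2⟩, h3⟩)
    · exact Or.inl ⟨h1, fun h => h3 ⟨h, h2⟩⟩
    · exact Or.inr ⟨h1, fun h => h3 ⟨h, h2⟩⟩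
  have h3 := (abs_measure_sub_le π E C).trans hCE
  have hB1 : (π B).toReal ≤ 1 := measureReal_le_one
  have hB0 : 0 ≤ (π B).toReal := ENNReal.toReal_nonneg
  have h4 : |(π E).toReal * (π B).toReal - (π C).toReal * (π B).toReal| ≤ ε / 3 := by
    rw [← sub_mul, abs_mul, abs_of_nonneg hB0]
    exact (mul_le_mul h3 hB1 hB0 (by positivity)).trans (by linarith)
  rw [abs_le] at *
  constructor <;> linarith [h1.1, h1.2, h2.1, h2.2, h4.1, h4.2]

theorem shift_shift (v w : Site d) (x : Config A d) : shift v (shift w x) = shift (v + w) x := by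
  funext i
  simp only [shift, add_assoc]

theorem measure_shift {Φ : PCA A d} {π : Measure (Config A d)} (h : Φ.Ergodic π) (v : Site d)
    {E : Set (Config A d)} (hE : MeasurableSet E) : π (shift v ⁻¹' E) = π E := by
  conv_rhs => rw [← shift_invariant h v]
  rw [Measure.map_apply (measurable_shift v) hE]

/-- The shift of an event of `S` is an event of a translate of `S`. -/
theorem shift_siteAlg {S T : Set (Site d)} (v : Site d) (hST : ∀ i ∈ S, i + v ∈ T)
    {E : Set (Config A d)} (hE : MeasurableSet[siteAlg A S] E) :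
    MeasurableSet[siteAlg A T] (shift v ⁻¹' E) := by
  obtain ⟨E', hE', rfl⟩ := hE
  refine ⟨(fun (z : T → A) (i : S) => z ⟨i.1 + v, hST i.1 i.2⟩) ⁻¹' E', ?_, rfl⟩
  exact (measurable_pi_lambda _ (fun i => measurable_pi_apply _) :
    Measurable (fun (z : T → A) (i : S) => z ⟨i.1 + v, hST i.1 i.2⟩)) hE'

/-- Multiple mixing for window events, jointly with an arbitrary far event. The weight `w` is
either constant or the probability of the far event. -/
theorem multi_window {Φ : PCA A d} {π : Measure (Config A d)} (h : Φ.Ergodic π)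
    (w : Set (Config A d) → ℝ) (hw0 : ∀ B, 0 ≤ w B) (hwm : ∀ X B, w (X ∩ B) ≤ w B)
    (hws : ∀ v B, MeasurableSet B → w (shift v ⁻¹' B) = w B)
    {k : ℕ} (C : Fin k → Set (Config A d)) (F : Fin k → Finset (Site d))
    (hC : ∀ i, MeasurableSet[siteAlg A (F i : Set (Site d))] (C i)) (δ : ℝ) (hδ : 0 ≤ δ)
    (R : Fin k → ℝ)
    (hR : ∀ i, ∀ B : Set (Config A d), MeasurableSet[farAlg A d (R i)] B →
      |(π (C i ∩ B)).toReal - (π (C i)).toReal * (π B).toReal| ≤ δ * w B) :
    ∃ R' : ℝ, ∀ v : Fin k → Site d, (∀ i j, i ≠ j → R' < ‖v i - v j‖) →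
      ∀ B : Set (Config A d), MeasurableSet[siteAlg A {i : Site d | ∀ j, R' < ‖i - v j‖}] B →
      ∀ s : Finset (Fin k),
      |(π ((⋂ i ∈ s, shift (v i) ⁻¹' C i) ∩ B)).toReal
        - (∏ i ∈ s, (π (C i)).toReal) * (π B).toReal| ≤ s.card * δ * w B := by
  classical
  have hp : IsProbabilityMeasure π := h.1
  have hm : ∀ i, MeasurableSet (C i) := fun i => siteAlg_le _ _ (hC i)
  refine ⟨∑ i, |R i| + ∑ i, ∑ j ∈ F i, ‖j‖, fun v hv B hB s => ?_⟩
  have hB' : MeasurableSet B := siteAlg_le _ _ hB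
  have hsum : 0 ≤ ∑ i, ∑ j ∈ F i, ‖j‖ :=
    Finset.sum_nonneg (fun _ _ => Finset.sum_nonneg (fun _ _ => norm_nonneg _))
  induction s using Finset.induction_on with
  | empty => simp
  | insert a s ha ih =>
    rw [Finset.prod_insert ha, Finset.card_insert_of_notMem ha, Finset.set_biInter_insert]
    have hI : ∀ u : Fin k → Site d, MeasurableSet (⋂ i ∈ s, shift (u i) ⁻¹' C i) := fun u =>
      Finset.measurableSet_biInter _ (fun i _ => measurable_shift _ (hm i))
    have hpre : shift (v a) ⁻¹' ((⋂ i ∈ s, shift (v i - v a) ⁻¹' C i) ∩ shift (-v a) ⁻¹' B)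
        = (⋂ i ∈ s, shift (v i) ⁻¹' C i) ∩ B := by
      ext x
      have e0 : shift (-v a + v a) x = x := by
        funext i
        simp [shift]
      simp only [mem_inter_iff, mem_preimage, mem_iInter, shift_shift, sub_add_cancel, e0]
    have e1 : π ((shift (v a) ⁻¹' C a ∩ ⋂ i ∈ s, shift (v i) ⁻¹' C i) ∩ B)
        = π (C a ∩ ((⋂ i ∈ s, shift (v i - v a) ⁻¹' C i) ∩ shift (-v a) ⁻¹' B)) := by
      rw [inter_assoc, ← hpre, ← preimage_inter]
      exact measure_shift h _ ((hm a).inter ((hI _).inter (measurable_shift _ hB')))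
    have e2 : π ((⋂ i ∈ s, shift (v i - v a) ⁻¹' C i) ∩ shift (-v a) ⁻¹' B)
        = π ((⋂ i ∈ s, shift (v i) ⁻¹' C i) ∩ B) := by
      rw [← hpre]
      exact (measure_shift h _ ((hI _).inter (measurable_shift _ hB'))).symm
    have e3 : w ((⋂ i ∈ s, shift (v i - v a) ⁻¹' C i) ∩ shift (-v a) ⁻¹' B) ≤ w B :=
      (hwm _ _).trans (hws _ _ hB').le
    have hfar : MeasurableSet[farAlg A d (R a)]
        ((⋂ i ∈ s, shift (v i - v a) ⁻¹' C i) ∩ shift (-v a) ⁻¹' B) := by
      have h3 : |R a| ≤ ∑ i, |R i| :=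
        Finset.single_le_sum (f := fun i => |R i|) (fun _ _ => abs_nonneg _) (Finset.mem_univ a)
      have h5 := le_abs_self (R a)
      refine @MeasurableSet.inter _ (farAlg A d (R a)) _ _ ?_ ?_
      · refine @Finset.measurableSet_biInter _ _ (farAlg A d (R a)) _ _ (fun i hi => ?_)
        refine shift_siteAlg (v i - v a) ?_ (hC i)
        intro j hj
        have hia : i ≠ a := fun h => ha (h ▸ hi)
        have h1 := hv i a hia
        have h2 : ‖v i - v a‖ ≤ ‖j + (v i - v a)‖ + ‖j‖ := by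
          have : v i - v a = (j + (v i - v a)) - j := by abel
          calc ‖v i - v a‖ = ‖(j + (v i - v a)) - j‖ := by rw [← this]
            _ ≤ _ := norm_sub_le _ _
        have h4 : ‖j‖ ≤ ∑ i, ∑ j ∈ F i, ‖j‖ := by
          refine le_trans (Finset.single_le_sum (f := fun j => ‖j‖) (fun _ _ => norm_nonneg _)
            (Finset.mem_coe.1 hj)) ?_
          exact Finset.single_le_sum (f := fun i => ∑ j ∈ F i, ‖j‖)
            (fun _ _ => Finset.sum_nonneg (fun _ _ => norm_nonneg _)) (Finset.mem_univ i)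
        change R a < ‖j + (v i - v a)‖
        linarith
      · refine shift_siteAlg (-v a) ?_ hB
        intro j hj
        have h1 : ∑ i, |R i| + ∑ i, ∑ j ∈ F i, ‖j‖ < ‖j - v a‖ := hj a
        change R a < ‖j + -v a‖
        rw [← sub_eq_add_neg]
        linarith
    have key := hR a _ hfar
    rw [e1]
    rw [e2] at key
    have hle : (π (C a)).toReal ≤ 1 := measureReal_le_one
    have hnn : 0 ≤ (π (C a)).toReal := ENNReal.toReal_nonneg
    have hcw : 0 ≤ (s.card : ℝ) * δ * w B := by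
      have := hw0 B
      positivity
    have h6 : |(π (C a)).toReal * (π ((⋂ i ∈ s, shift (v i) ⁻¹' C i) ∩ B)).toReal
        - (π (C a)).toReal * ((∏ i ∈ s, (π (C i)).toReal) * (π B).toReal)|
          ≤ s.card * δ * w B := by
      rw [← mul_sub, abs_mul, abs_of_nonneg hnn]
      calc (π (C a)).toReal * |(π ((⋂ i ∈ s, shift (v i) ⁻¹' C i) ∩ B)).toReal
          - (∏ i ∈ s, (π (C i)).toReal) * (π B).toReal| ≤ 1 * (s.card * δ * w B) :=
            mul_le_mul hle ih (abs_nonneg _) (by norm_num)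
        _ = _ := one_mul _
    have h7 : δ * w ((⋂ i ∈ s, shift (v i - v a) ⁻¹' C i) ∩ shift (-v a) ⁻¹' B) ≤ δ * w B :=
      mul_le_mul_of_nonneg_left e3 hδ
    have h8 : ((s.card + 1 : ℕ) : ℝ) * δ * w B = s.card * δ * w B + δ * w B := by
      push_cast; ring
    rw [h8]
    rw [abs_le] at *
    constructor <;> linarith [key.1, key.2, h6.1, h6.2]

theorem prod_diff_le {k : ℕ} (a b : Fin k → ℝ) (ha : ∀ i, 0 ≤ a i ∧ a i ≤ 1)
    (hb : ∀ i, 0 ≤ b i ∧ b i ≤ 1) (ε : ℝ) (hab : ∀ i, |a i - b i| ≤ ε) (s : Finset (Fin k)) :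
    |∏ i ∈ s, a i - ∏ i ∈ s, b i| ≤ s.card * ε := by
  classical
  induction s using Finset.induction_on with
  | empty => simp
  | insert c s hc ih =>
    rw [Finset.prod_insert hc, Finset.prod_insert hc, Finset.card_insert_of_notMem hc]
    have h1 : a c * ∏ i ∈ s, a i - b c * ∏ i ∈ s, b i
        = a c * (∏ i ∈ s, a i - ∏ i ∈ s, b i) + (a c - b c) * ∏ i ∈ s, b i := by ring
    rw [h1]
    have h2 : 0 ≤ ∏ i ∈ s, b i := Finset.prod_nonneg (fun i _ => (hb i).1)
    have h3 : ∏ i ∈ s, b i ≤ 1 := Finset.prod_le_one (fun i _ => (hb i).1) (fun i _ => (hb i).2)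
    refine (abs_add_le _ _).trans ?_
    rw [abs_mul, abs_mul, abs_of_nonneg (ha c).1, abs_of_nonneg h2]
    have h4 : a c * |∏ i ∈ s, a i - ∏ i ∈ s, b i| ≤ 1 * (s.card * ε) :=
      mul_le_mul (ha c).2 ih (abs_nonneg _) (by norm_num)
    have h5 : |a c - b c| * ∏ i ∈ s, b i ≤ ε * 1 :=
      mul_le_mul (hab c) h3 h2 ((abs_nonneg _).trans (hab c))
    push_cast
    linarith

/-- Multiple mixing of the invariant law of an ergodic PCA, jointly with far events. -/
theorem ergodic_mixing {Φ : PCA A d} {π : Measure (Config A d)} (h : Φ.Ergodic π)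
    {k : ℕ} (E : Fin k → Set (Config A d)) (hE : ∀ i, MeasurableSet (E i)) (ε : ℝ) (hε : 0 < ε) :
    ∃ R : ℝ, ∀ v : Fin k → Site d, (∀ i j, i ≠ j → R < ‖v i - v j‖) →
      ∀ B : Set (Config A d), MeasurableSet[siteAlg A {i : Site d | ∀ j, R < ‖i - v j‖}] B →
      |(π ((⋂ i, shift (v i) ⁻¹' E i) ∩ B)).toReal
        - (∏ i, (π (E i)).toReal) * (π B).toReal| ≤ ε := by
  classical
  have hp : IsProbabilityMeasure π := h.1
  have hδ : 0 < ε / (3 * (k + 1)) := by positivity
  choose F C hC hCE using fun i => approx_window π (E i) (hE i) (ε / (3 * (k + 1))) hδ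
  have hm : ∀ i, MeasurableSet (C i) := fun i => siteAlg_le _ _ (hC i)
  choose R₀ hR₀ using fun i => short_range_window h (hC i) (ε / (3 * (k + 1))) hδ
  obtain ⟨R, hR⟩ := multi_window h (fun _ => 1) (fun _ => zero_le_one) (fun _ _ => le_rfl)
    (fun _ _ _ => rfl) C F hC (ε / (3 * (k + 1))) hδ.le R₀
    (fun i B hB => by simpa using hR₀ i B hB)
  refine ⟨R, fun v hv B hB => ?_⟩
  have h1 := hR v hv B hB Finset.univ
  have hk : (k : ℝ) * (ε / (3 * (k + 1))) ≤ ε / 3 := by
    rw [mul_div_assoc', div_le_div_iff₀ (by positivity) (by positivity)]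
    nlinarith
  simp only [Finset.mem_univ, iInter_true, Finset.card_univ, Fintype.card_fin, mul_one] at h1
  have h2 : |∏ i, (π (E i)).toReal - ∏ i, (π (C i)).toReal| ≤ k * (ε / (3 * (k + 1))) := by
    have := prod_diff_le (fun i => (π (E i)).toReal) (fun i => (π (C i)).toReal)
      (fun i => ⟨ENNReal.toReal_nonneg, measureReal_le_one⟩)
      (fun i => ⟨ENNReal.toReal_nonneg, measureReal_le_one⟩) (ε / (3 * (k + 1)))
      (fun i => (abs_measure_sub_le π _ _).trans (hCE i)) Finset.univ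
    simpa using this
  have hB1 : (π B).toReal ≤ 1 := measureReal_le_one
  have hB0 : 0 ≤ (π B).toReal := ENNReal.toReal_nonneg
  have h2' : |(∏ i, (π (E i)).toReal) * (π B).toReal - (∏ i, (π (C i)).toReal) * (π B).toReal|
      ≤ k * (ε / (3 * (k + 1))) := by
    rw [← sub_mul, abs_mul, abs_of_nonneg hB0]
    calc |∏ i, (π (E i)).toReal - ∏ i, (π (C i)).toReal| * (π B).toReal
        ≤ (k * (ε / (3 * (k + 1)))) * 1 := mul_le_mul h2 hB1 hB0 (by positivity)
      _ = _ := mul_one _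
  have h3 : |(π ((⋂ i, shift (v i) ⁻¹' E i) ∩ B)).toReal
      - (π ((⋂ i, shift (v i) ⁻¹' C i) ∩ B)).toReal| ≤ k * (ε / (3 * (k + 1))) := by
    refine (abs_measure_sub_le π _ _).trans ?_
    have hsub : ((⋂ i, shift (v i) ⁻¹' E i) ∩ B) ∆ ((⋂ i, shift (v i) ⁻¹' C i) ∩ B)
        ⊆ ⋃ i, shift (v i) ⁻¹' (E i ∆ C i) := by
      rintro x (⟨⟨h1, hb⟩, h2⟩ | ⟨⟨h1, hb⟩, h2⟩)
      · have h2' : x ∉ ⋂ i, shift (v i) ⁻¹' C i := fun h => h2 ⟨h, hb⟩
        simp only [mem_iInter, mem_preimage, not_forall] at h1 h2'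
        obtain ⟨i, hi⟩ := h2'
        exact mem_iUnion.2 ⟨i, Or.inl ⟨h1 i, hi⟩⟩
      · have h2' : x ∉ ⋂ i, shift (v i) ⁻¹' E i := fun h => h2 ⟨h, hb⟩
        simp only [mem_iInter, mem_preimage, not_forall] at h1 h2'
        obtain ⟨i, hi⟩ := h2'
        exact mem_iUnion.2 ⟨i, Or.inr ⟨h1 i, hi⟩⟩
    have h4 : π (⋃ i, shift (v i) ⁻¹' (E i ∆ C i)) ≤ ∑ i, π (E i ∆ C i) := by
      refine (measure_iUnion_fintype_le _ _).trans (Finset.sum_le_sum fun i _ => ?_)
      rw [measure_shift h _ ((hE i).symmDiff (hm i))]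
    have h5 : (π (((⋂ i, shift (v i) ⁻¹' E i) ∩ B) ∆ ((⋂ i, shift (v i) ⁻¹' C i) ∩ B))).toReal
        ≤ ∑ i, (π (E i ∆ C i)).toReal := by
      rw [← ENNReal.toReal_sum (fun i _ => measure_ne_top _ _)]
      refine ENNReal.toReal_mono ?_ ((measure_mono hsub).trans h4)
      exact (ENNReal.sum_lt_top.2 (fun i _ => measure_lt_top _ _)).ne
    refine h5.trans ?_
    calc ∑ i, (π (E i ∆ C i)).toReal ≤ ∑ _i : Fin k, ε / (3 * (k + 1)) :=
          Finset.sum_le_sum (fun i _ => hCE i)
      _ = _ := by simp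
  rw [abs_le] at *
  constructor <;> linarith [h1.1, h1.2, h2'.1, h2'.2, h3.1, h3.2]

/-- Uniform multiple mixing for the invariant law of a uniformly ergodic PCA: the error is
relative to the probability of the far event. -/
theorem uniform_mixing {Φ : PCA A d} {π : Measure (Config A d)} (h : Φ.UniformlyErgodic π)
    {k : ℕ} (F : Fin k → Finset (Site d)) (u : ∀ i, F i → A) (ε : ℝ) (hε : 0 < ε) :
    ∃ R : ℝ, ∀ v : Fin k → Site d, (∀ i j, i ≠ j → R < ‖v i - v j‖) →
      ∀ B : Set (Config A d), MeasurableSet[siteAlg A {i : Site d | ∀ j, R < ‖i - v j‖}] B →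
      |(π ((⋂ i, shift (v i) ⁻¹' cyl (F i) (u i)) ∩ B)).toReal
        - (∏ i, (π (cyl (F i) (u i))).toReal) * (π B).toReal| ≤ ε * (π B).toReal := by
  have hp : IsProbabilityMeasure π := h.1.1
  have hδ : 0 < ε / (k + 1) := by positivity
  choose R₀ hR₀ using fun i => uniform_window h (F i) (u i) (ε / (k + 1)) hδ
  obtain ⟨R, hR⟩ := multi_window h.1 (fun B => (π B).toReal) (fun _ => ENNReal.toReal_nonneg)
    (fun X B => ENNReal.toReal_mono (measure_ne_top _ _) (measure_mono inter_subset_right))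
    (fun v B hB => by simp only [measure_shift h.1 v hB])
    (fun i => cyl (F i) (u i)) F (fun i => cyl_mem_siteAlg _ _) (ε / (k + 1)) hδ.le R₀ hR₀
  refine ⟨R, fun v hv B hB => ?_⟩
  have h1 := hR v hv B hB Finset.univ
  simp only [Finset.mem_univ, iInter_true, Finset.card_univ, Fintype.card_fin] at h1
  refine h1.trans (mul_le_mul_of_nonneg_right ?_ ENNReal.toReal_nonneg)
  rw [mul_div_assoc', div_le_iff₀ (by positivity)]
  nlinarith

end PCABern
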