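import Pool.Agent.Lib.MP_91598f_pr.Basic

open MeasureTheory ProbabilityTheory Filter Topology Set
open scoped ENNReal

namespace PCABern

set_option linter.unusedSectionVars false

variable {A : Type} [Finite A] [Nonempty A] [MeasurableSpace A] [MeasurableSingletonClass A]
  {d : ℕ}

/-- `t`-step transition law. -/
noncomputable def PCA.K {A : Type} [MeasurableSpace A] {d : ℕ}
    (Φ : PCA A d) : ℕ → Config A d → Measure (Config A d)
  | 0 => fun x => Measure.dirac x
  | t + 1 => fun x => (Φ.step x).bind (Φ.K t)

theorem measurable_K (Φ : PCA A d) (t : ℕ) : Measurable (Φ.K t) := by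
  induction t with
  | zero => exact Measure.measurable_dirac
  | succ t ih => exact (Measure.measurable_bind' ih).comp (measurable_step Φ)

instance instProbStep (Φ : PCA A d) (x : Config A d) : IsProbabilityMeasure (Φ.step x) := by
  unfold PCA.step; infer_instance

theorem prob_bind {Ω Ω' : Type*} [MeasurableSpace Ω] [MeasurableSpace Ω'] (μ : Measure Ω)
    [IsProbabilityMeasure μ] (κ : Ω → Measure Ω') (hκ : Measurable κ)
    (hp : ∀ x, IsProbabilityMeasure (κ x)) : IsProbabilityMeasure (μ.bind κ) := by
  constructor
  rw [Measure.bind_apply MeasurableSet.univ hκ.aemeasurable]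
  simp

theorem prob_K (Φ : PCA A d) (t : ℕ) (x : Config A d) : IsProbabilityMeasure (Φ.K t x) := by
  induction t generalizing x with
  | zero => unfold PCA.K; infer_instance
  | succ t ih => exact prob_bind _ _ (measurable_K Φ t) ih

theorem evolve_iterate (Φ : PCA A d) (t : ℕ) (μ : Measure (Config A d)) :
    Φ.evolve^[t] μ = μ.bind (Φ.K t) := by
  induction t generalizing μ with
  | zero =>
    simp only [Function.iterate_zero, id_eq]
    exact (Measure.bind_dirac).symm
  | succ t ih =>
    rw [Function.iterate_succ_apply, ih]
    unfold PCA.evolve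
    rw [Measure.bind_bind (measurable_step Φ).aemeasurable (measurable_K Φ t).aemeasurable]
    rfl

/-- The dependence set: the set of sites at distance at most `t` neighbourhoods of `S`. -/
def PCA.cone {A : Type} [MeasurableSpace A] {d : ℕ} (Φ : PCA A d) (S : Set (Site d)) :
    ℕ → Set (Site d)
  | 0 => S
  | t + 1 => {j | ∃ i ∈ Φ.cone S t, ∃ n ∈ Φ.N, j = i + n}

/-- Locality: the `t`-step transition probability of an event of `S` only depends on the sites of
the dependence cone. -/
theorem K_local (Φ : PCA A d) (S : Set (Site d)) {E : Set (Config A d)}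
    (hE : MeasurableSet[siteAlg A S] E) (t : ℕ) :
    Measurable[siteAlg A (Φ.cone S t)] (fun x => Φ.K t x E) := by
  have hE' : MeasurableSet E := siteAlg_le S _ hE
  induction t with
  | zero =>
    have : (fun x => Φ.K 0 x E) = E.indicator 1 := by
      funext x
      exact Measure.dirac_apply' _ hE'
    rw [this]
    exact (measurable_const.indicator hE : Measurable[siteAlg A S] (E.indicator (fun _ => (1 : ℝ≥0∞))))
  | succ t ih =>
    refine measurable_siteAlg_of_dependsOn ?_ ?_
    · exact (Measure.measurable_coe hE').comp (measurable_K Φ (t + 1))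
    · intro x y hxy
      have e : ∀ z, Φ.K (t + 1) z E = ∫⁻ w, Φ.K t w E ∂(Φ.step z) := by
        intro z
        change (Φ.step z).bind (Φ.K t) E = _
        rw [Measure.bind_apply hE' (measurable_K Φ t).aemeasurable]
      rw [e, e]
      unfold PCA.step
      refine lintegral_infinitePi_congr ih (fun i hi => ?_)
      congr 1
      funext n
      exact hxy _ ⟨i, hi, n.1, n.2, rfl⟩

/-- Conditional independence: events whose dependence cones are disjoint at all times `< t` are
independent under the `t`-step transition law. -/
theorem K_indep (Φ : PCA A d) (S T : Set (Site d)) {E F : Set (Config A d)}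
    (hE : MeasurableSet[siteAlg A S] E) (hF : MeasurableSet[siteAlg A T] F) (t : ℕ)
    (hd : ∀ s < t, Disjoint (Φ.cone S s) (Φ.cone T s)) (x : Config A d) :
    Φ.K t x (E ∩ F) = Φ.K t x E * Φ.K t x F := by
  have hE' : MeasurableSet E := siteAlg_le S _ hE
  have hF' : MeasurableSet F := siteAlg_le T _ hF
  induction t generalizing x with
  | zero =>
    change Measure.dirac x (E ∩ F) = Measure.dirac x E * Measure.dirac x F
    rw [Measure.dirac_apply' _ (hE'.inter hF'), Measure.dirac_apply' _ hE',
      Measure.dirac_apply' _ hF']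
    by_cases h1 : x ∈ E <;> by_cases h2 : x ∈ F <;> simp [h1, h2]
  | succ t ih =>
    have e : ∀ G : Set (Config A d), MeasurableSet G →
        Φ.K (t + 1) x G = ∫⁻ w, Φ.K t w G ∂(Φ.step x) := by
      intro G hG
      change (Φ.step x).bind (Φ.K t) G = _
      rw [Measure.bind_apply hG (measurable_K Φ t).aemeasurable]
    rw [e _ (hE'.inter hF'), e _ hE', e _ hF']
    have h1 : ∀ w, Φ.K t w (E ∩ F) = Φ.K t w E * Φ.K t w F :=
      fun w => ih (fun s hs => hd s (by omega)) w
    simp only [h1]
    have := lintegral_mul_eq_lintegral_mul_lintegral_of_independent_measurableSpace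
      (μ := Φ.step x) (siteAlg_le (A := A) (Φ.cone S t)) (siteAlg_le (A := A) (Φ.cone T t))
      (indep_siteAlg _ (hd t (by omega))) (K_local Φ S hE t) (K_local Φ T hF t)
    exact this

/-- Covariance identity for invariant measures. -/
theorem cov_bound (Φ : PCA A d) (π : Measure (Config A d)) [IsProbabilityMeasure π]
    (hπ : Φ.evolve π = π) (S T : Set (Site d)) {E F : Set (Config A d)}
    (hE : MeasurableSet[siteAlg A S] E) (hF : MeasurableSet[siteAlg A T] F) (t : ℕ)
    (hd : ∀ s < t, Disjoint (Φ.cone S s) (Φ.cone T s)) :
    |(π (E ∩ F)).toReal - (π E).toReal * (π F).toReal| ≤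
      ∫ x, |(Φ.K t x E).toReal - (π E).toReal| * (Φ.K t x F).toReal ∂π := by
  have hE' : MeasurableSet E := siteAlg_le S _ hE
  have hF' : MeasurableSet F := siteAlg_le T _ hF
  have hinv : ∀ G : Set (Config A d), MeasurableSet G →
      (π G).toReal = ∫ x, (Φ.K t x G).toReal ∂π := by
    intro G hG
    have h1 : Φ.evolve^[t] π = π := Function.iterate_fixed hπ t
    rw [evolve_iterate] at h1
    conv_lhs => rw [← h1]
    rw [Measure.bind_apply hG (measurable_K Φ t).aemeasurable]
    rw [integral_toReal]
    · exact ((Measure.measurable_coe hG).comp (measurable_K Φ t)).aemeasurable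
    · refine Eventually.of_forall (fun x => ?_)
      have := prob_K Φ t x
      exact measure_lt_top _ _
  have hm : ∀ G : Set (Config A d), MeasurableSet G →
      Measurable (fun x => (Φ.K t x G).toReal) := fun G hG =>
    ((Measure.measurable_coe hG).comp (measurable_K Φ t)).ennreal_toReal
  have hle : ∀ G x, (Φ.K t x G).toReal ≤ 1 := by
    intro G x
    have := prob_K Φ t x
    exact measureReal_le_one
  have hnn : ∀ G x, 0 ≤ (Φ.K t x G).toReal := fun G x => ENNReal.toReal_nonneg
  have hi1 : Integrable (fun x => (Φ.K t x E).toReal * (Φ.K t x F).toReal) π := by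
    refine Integrable.of_bound ((hm E hE').mul (hm F hF')).aestronglyMeasurable 1
      (Eventually.of_forall fun x => ?_)
    rw [Real.norm_eq_abs, abs_of_nonneg (mul_nonneg (hnn _ _) (hnn _ _))]
    exact mul_le_one₀ (hle _ _) (hnn _ _) (hle _ _)
  have hi2 : Integrable (fun x => (Φ.K t x F).toReal) π := by
    refine Integrable.of_bound (hm F hF').aestronglyMeasurable 1
      (Eventually.of_forall fun x => ?_)
    rw [Real.norm_eq_abs, abs_of_nonneg (hnn _ _)]
    exact hle _ _
  have key : (π (E ∩ F)).toReal - (π E).toReal * (π F).toReal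
      = ∫ x, ((Φ.K t x E).toReal - (π E).toReal) * (Φ.K t x F).toReal ∂π := by
    rw [hinv _ (hE'.inter hF'), hinv F hF']
    rw [← integral_const_mul, ← integral_sub]
    · refine integral_congr_ae (Eventually.of_forall fun x => ?_)
      simp only [K_indep Φ S T hE hF t hd x, ENNReal.toReal_mul]
      ring
    · have : (fun x => (Φ.K t x (E ∩ F)).toReal)
          = fun x => (Φ.K t x E).toReal * (Φ.K t x F).toReal := by
        funext x
        rw [K_indep Φ S T hE hF t hd x, ENNReal.toReal_mul]
      rw [this]
      exact hi1
    · exact hi2.const_mul _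
  rw [key]
  refine (abs_integral_le_integral_abs).trans (le_of_eq ?_)
  refine integral_congr_ae (Eventually.of_forall fun x => ?_)
  simp only [abs_mul, abs_of_nonneg (hnn F x)]

end PCABern
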