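import Pool.Agent.Lib.MP_91598f_pr.Iter

open MeasureTheory ProbabilityTheory Filter Topology Set
open scoped ENNReal symmDiff

namespace PCABern

set_option linter.unusedSectionVars false
set_option warn.classDefReducibility false

/-- `π` is the limit law of an ergodic PCA: it is invariant, it is the unique invariant probability
measure and every initial probability law converges (weakly, i.e. on all cylinders) to it. -/
def PCA.Ergodic {A : Type} [MeasurableSpace A] {d : ℕ} (Φ : PCA A d) (π : Measure (Config A d)) :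
    Prop :=
  IsProbabilityMeasure π ∧ Φ.evolve π = π ∧
  (∀ ν : Measure (Config A d), IsProbabilityMeasure ν → Φ.evolve ν = ν → ν = π) ∧
  ∀ μ : Measure (Config A d), IsProbabilityMeasure μ → ∀ (F : Finset (Site d)) (u : F → A),
    Tendsto (fun t => Φ.evolve^[t] μ (cyl F u)) atTop (𝓝 (π (cyl F u)))

/-- Uniform ergodicity: the convergence on every cylinder is uniform in the initial law. -/
def PCA.UniformlyErgodic {A : Type} [MeasurableSpace A] {d : ℕ} (Φ : PCA A d)
    (π : Measure (Config A d)) : Prop :=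
  Φ.Ergodic π ∧ ∀ (F : Finset (Site d)) (u : F → A), ∀ ε : ℝ, 0 < ε → ∃ T : ℕ, ∀ t, T ≤ t →
    ∀ μ : Measure (Config A d), IsProbabilityMeasure μ →
      |(Φ.evolve^[t] μ (cyl F u)).toReal - (π (cyl F u)).toReal| ≤ ε

/-- The sigma-algebra of the sites at distance more than `R` from the origin. -/
def farAlg (A : Type) [MeasurableSpace A] (d : ℕ) (R : ℝ) : MeasurableSpace (Config A d) :=
  siteAlg A {i : Site d | R < ‖i‖}

/-- The shift action. -/
def shift {A : Type} {d : ℕ} (v : Site d) (x : Config A d) : Config A d := fun i => x (i + v)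

variable {A : Type} [Finite A] [Nonempty A] [MeasurableSpace A] [MeasurableSingletonClass A]
  {d : ℕ}

theorem measurable_shift (v : Site d) : Measurable (shift (A := A) v) :=
  measurable_pi_lambda _ (fun i => measurable_pi_apply _)

theorem step_shift (Φ : PCA A d) (v : Site d) (x : Config A d) :
    (Φ.step x).map (shift v) = Φ.step (shift v x) := by
  unfold PCA.step
  have hinj : Function.Injective (fun j : Site d => j + v) := add_left_injective v
  have := Measure.map_infinitePi_infinitePi_of_inj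
    (P := fun i : Site d => Φ.rule (fun n : Φ.N => x (i + n.1))) hinj
  change Measure.map (fun (ω : Config A d) (i : Site d) => ω (i + v)) _ = _
  rw [this]
  congr 1
  funext i
  congr 1
  funext n
  change x (i + v + n.1) = x (i + n.1 + v)
  rw [add_right_comm]

theorem evolve_shift (Φ : PCA A d) (v : Site d) (μ : Measure (Config A d)) :
    Φ.evolve (μ.map (shift v)) = (Φ.evolve μ).map (shift v) := by
  ext E hE
  unfold PCA.evolve
  rw [Measure.bind_apply hE (measurable_step Φ).aemeasurable,
    Measure.map_apply (measurable_shift v) hE,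
    Measure.bind_apply (measurable_shift v hE) (measurable_step Φ).aemeasurable,
    lintegral_map (f := fun y => Φ.step y E)
      ((Measure.measurable_coe hE).comp (measurable_step Φ)) (measurable_shift v)]
  refine lintegral_congr (fun x => ?_)
  rw [← step_shift, Measure.map_apply (measurable_shift v) hE]

theorem shift_invariant {Φ : PCA A d} {π : Measure (Config A d)} (h : Φ.Ergodic π) (v : Site d) :
    π.map (shift v) = π := by
  obtain ⟨hp, hinv, huniq, -⟩ := h
  refine huniq _ (Measure.isProbabilityMeasure_map (measurable_shift v).aemeasurable) ?_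
  rw [evolve_shift, hinv]

theorem mem_cone (Φ : PCA A d) : ∃ r : ℝ, 0 ≤ r ∧ ∀ (S : Set (Site d)) (t : ℕ),
    ∀ j ∈ Φ.cone S t, ∃ i ∈ S, ‖j - i‖ ≤ t * r := by
  refine ⟨∑ n ∈ Φ.N, ‖n‖, Finset.sum_nonneg (fun _ _ => norm_nonneg _), fun S t => ?_⟩
  induction t with
  | zero =>
    intro j hj
    exact ⟨j, hj, by simp⟩
  | succ t ih =>
    rintro j ⟨i, hi, n, hn, rfl⟩
    obtain ⟨k, hk, hki⟩ := ih i hi
    refine ⟨k, hk, ?_⟩
    have h1 : ‖n‖ ≤ ∑ n ∈ Φ.N, ‖n‖ :=
      Finset.single_le_sum (f := fun n => ‖n‖) (fun _ _ => norm_nonneg _) hn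
    have h2 : ‖i + n - k‖ ≤ ‖i - k‖ + ‖n‖ := by
      have : i + n - k = (i - k) + n := by abel
      rw [this]
      exact norm_add_le _ _
    push_cast
    nlinarith [h1, h2, hki]

theorem cone_disjoint (Φ : PCA A d) (F : Finset (Site d)) (t : ℕ) :
    ∃ R : ℝ, ∀ s ≤ t, Disjoint (Φ.cone (F : Set (Site d)) s) (Φ.cone {i : Site d | R < ‖i‖} s) := by
  obtain ⟨r, hr, hc⟩ := mem_cone Φ
  refine ⟨(∑ i ∈ F, ‖i‖) + 2 * (t * r), fun s hs => ?_⟩
  rw [Set.disjoint_left]
  intro j h1 h2
  obtain ⟨i, hi, h3⟩ := hc _ _ _ h1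
  obtain ⟨k, hk, h4⟩ := hc _ _ _ h2
  have h5 : ‖i‖ ≤ ∑ i ∈ F, ‖i‖ :=
    Finset.single_le_sum (f := fun n => ‖n‖) (fun _ _ => norm_nonneg _) hi
  have h6 : (s : ℝ) * r ≤ t * r := mul_le_mul_of_nonneg_right (by exact_mod_cast hs) hr
  have h7 : ‖k‖ ≤ ‖j - k‖ + ‖j - i‖ + ‖i‖ := by
    have : k = -(j - k) + (j - i) + i := by abel
    calc ‖k‖ = ‖-(j - k) + (j - i) + i‖ := by rw [← this]
      _ ≤ ‖-(j - k) + (j - i)‖ + ‖i‖ := norm_add_le _ _
      _ ≤ ‖-(j - k)‖ + ‖j - i‖ + ‖i‖ := by
          have := norm_add_le (-(j - k)) (j - i)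
          linarith
      _ = _ := by rw [norm_neg]
  have hk' : (∑ i ∈ F, ‖i‖) + 2 * (t * r) < ‖k‖ := hk
  linarith

/-- An event of a finite window is a finite union of cylinders. -/
theorem event_decomp {F : Finset (Site d)} {E : Set (Config A d)}
    (hE : MeasurableSet[siteAlg A (F : Set (Site d))] E) :
    ∃ U : Set (F → A), E = ⋃ u ∈ U, cyl F u := by
  obtain ⟨E', hE', rfl⟩ := hE
  refine ⟨{u | (fun i : ((F : Set (Site d))) => u ⟨i.1, i.2⟩) ∈ E'}, ?_⟩
  ext x
  simp only [mem_preimage, mem_iUnion, mem_ofPred_eq, exists_prop]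
  constructor
  · intro hx
    exact ⟨fun i => x i.1, hx, fun i => rfl⟩
  · rintro ⟨u, hu, hx⟩
    have : (fun i : ((F : Set (Site d))) => x i.1) = (fun i => u ⟨i.1, i.2⟩) := by
      funext i
      exact hx ⟨i.1, i.2⟩
    rw [this]
    exact hu

theorem measurableSet_cyl (F : Finset (Site d)) (u : F → A) : MeasurableSet (cyl F u) := by
  have : cyl F u = ⋂ i : F, (fun x : Config A d => x i.1) ⁻¹' {u i} := by
    ext x; simp [cyl]
  rw [this]
  exact MeasurableSet.iInter (fun i => measurable_pi_apply _ (measurableSet_singleton _))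

theorem cyl_mem_siteAlg (F : Finset (Site d)) (u : F → A) :
    MeasurableSet[siteAlg A (F : Set (Site d))] (cyl F u) := by
  refine ⟨{z | ∀ i : F, z ⟨i.1, i.2⟩ = u i}, ?_, rfl⟩
  have : {z : (((F : Set (Site d))) → A) | ∀ i : F, z ⟨i.1, i.2⟩ = u i}
      = ⋂ i : F, (fun z => z ⟨i.1, i.2⟩) ⁻¹' {u i} := by
    ext x; simp
  rw [this]
  exact MeasurableSet.iInter (fun i => measurable_pi_apply _ (measurableSet_singleton _))

theorem measure_decomp (F : Finset (Site d)) (U : Set (F → A)) (μ : Measure (Config A d)) :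
    μ (⋃ u ∈ U, cyl F u) = ∑ u ∈ U.toFinite.toFinset, μ (cyl F u) := by
  have h : (⋃ u ∈ U, cyl F u) = ⋃ u ∈ U.toFinite.toFinset, cyl F u := by simp
  rw [h]
  refine measure_biUnion_finset ?_ (fun u _ => measurableSet_cyl F u)
  intro u _ v _ huv
  rw [Function.onFun, Set.disjoint_left]
  intro x hx hy
  exact huv (funext fun i => (hx i).symm.trans (hy i))

theorem tendsto_window {Φ : PCA A d} {π : Measure (Config A d)} (h : Φ.Ergodic π)
    {F : Finset (Site d)} {E : Set (Config A d)}
    (hE : MeasurableSet[siteAlg A (F : Set (Site d))] E) (μ : Measure (Config A d))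
    (hμ : IsProbabilityMeasure μ) :
    Tendsto (fun t => Φ.evolve^[t] μ E) atTop (𝓝 (π E)) := by
  obtain ⟨U, rfl⟩ := event_decomp hE
  simp only [measure_decomp]
  exact tendsto_finsetSum _ (fun u _ => h.2.2.2 μ hμ F u)

theorem K_eq_evolve (Φ : PCA A d) (t : ℕ) (x : Config A d) :
    Φ.K t x = Φ.evolve^[t] (Measure.dirac x) := by
  rw [evolve_iterate, Measure.dirac_bind (measurable_K Φ t)]

/-- Short range correlations for window events. -/
theorem short_range_window {Φ : PCA A d} {π : Measure (Config A d)} (h : Φ.Ergodic π)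
    {F : Finset (Site d)} {E : Set (Config A d)}
    (hE : MeasurableSet[siteAlg A (F : Set (Site d))] E) (ε : ℝ) (hε : 0 < ε) :
    ∃ R : ℝ, ∀ B : Set (Config A d), MeasurableSet[farAlg A d R] B →
      |(π (E ∩ B)).toReal - (π E).toReal * (π B).toReal| ≤ ε := by
  have hp : IsProbabilityMeasure π := h.1
  have hE' : MeasurableSet E := siteAlg_le _ _ hE
  have hm : ∀ t, Measurable (fun x => (Φ.K t x E).toReal) := fun t =>
    ((Measure.measurable_coe hE').comp (measurable_K Φ t)).ennreal_toReal
  have hle : ∀ t G x, (Φ.K t x G).toReal ≤ 1 := by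
    intro t G x
    have := prob_K Φ t x
    exact measureReal_le_one
  have hle' : (π E).toReal ≤ 1 := measureReal_le_one
  have hnn : ∀ t G x, 0 ≤ (Φ.K t x G).toReal := fun t G x => ENNReal.toReal_nonneg
  have hlim : Tendsto (fun t => ∫ x, |(Φ.K t x E).toReal - (π E).toReal| ∂π) atTop (𝓝 0) := by
    have : Tendsto (fun t => ∫ x, |(Φ.K t x E).toReal - (π E).toReal| ∂π) atTop
        (𝓝 (∫ _x : Config A d, (0 : ℝ) ∂π)) := by
      refine tendsto_integral_of_dominated_convergence (fun _ => (1 : ℝ)) ?_ ?_ ?_ ?_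
      · intro t
        exact (((hm t).sub measurable_const).norm).aestronglyMeasurable
      · exact integrable_const _
      · intro t
        refine Eventually.of_forall (fun x => ?_)
        rw [Real.norm_eq_abs, abs_abs, abs_le]
        have h1 := hle t E x
        have h2 := hnn t E x
        have h3 : 0 ≤ (π E).toReal := ENNReal.toReal_nonneg
        constructor <;> linarith
      · refine Eventually.of_forall (fun x => ?_)
        have h1 : Tendsto (fun t => Φ.K t x E) atTop (𝓝 (π E)) := by
          have := tendsto_window h hE (Measure.dirac x) inferInstance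
          simpa only [K_eq_evolve] using this
        have h2 : Tendsto (fun t => (Φ.K t x E).toReal) atTop (𝓝 (π E).toReal) :=
          (ENNReal.tendsto_toReal (measure_ne_top _ _)).comp h1
        have h3 := (h2.sub_const (π E).toReal).abs
        simpa using h3
    simpa using this
  obtain ⟨t, ht⟩ := (hlim.eventually (gt_mem_nhds hε)).exists
  obtain ⟨R, hR⟩ := cone_disjoint Φ F t
  refine ⟨R, fun B hB => ?_⟩
  have hB' : MeasurableSet B := siteAlg_le _ _ hB
  refine (cov_bound Φ π h.2.1 _ _ hE hB t (fun s hs => hR s hs.le)).trans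
    (le_trans ?_ ht.le)
  refine integral_mono_of_nonneg (Eventually.of_forall fun x =>
    mul_nonneg (abs_nonneg _) (hnn t B x)) ?_ (Eventually.of_forall fun x => ?_)
  · refine Integrable.of_bound (((hm t).sub measurable_const).norm).aestronglyMeasurable 1
      (Eventually.of_forall fun x => ?_)
    rw [Real.norm_eq_abs, abs_abs, abs_le]
    have h1 := hle t E x
    have h2 := hnn t E x
    have h3 : 0 ≤ (π E).toReal := ENNReal.toReal_nonneg
    constructor <;> linarith
  · simpa using mul_le_mul_of_nonneg_left (hle t B x) (abs_nonneg ((Φ.K t x E).toReal - (π E).toReal))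

/-- Uniform version for uniformly ergodic PCA. -/
theorem uniform_window {Φ : PCA A d} {π : Measure (Config A d)} (h : Φ.UniformlyErgodic π)
    (F : Finset (Site d)) (u : F → A) (ε : ℝ) (hε : 0 < ε) :
    ∃ R : ℝ, ∀ B : Set (Config A d), MeasurableSet[farAlg A d R] B →
      |(π (cyl F u ∩ B)).toReal - (π (cyl F u)).toReal * (π B).toReal| ≤ ε * (π B).toReal := by
  have hp : IsProbabilityMeasure π := h.1.1
  obtain ⟨t, ht⟩ := h.2 F u ε hε
  obtain ⟨R, hR⟩ := cone_disjoint Φ F t
  refine ⟨R, fun B hB => ?_⟩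
  have hB' : MeasurableSet B := siteAlg_le _ _ hB
  have hnn : ∀ t G x, 0 ≤ (Φ.K t x G).toReal := fun t G x => ENNReal.toReal_nonneg
  have hle : ∀ t G x, (Φ.K t x G).toReal ≤ 1 := by
    intro t G x
    have := prob_K Φ t x
    exact measureReal_le_one
  refine (cov_bound Φ π h.1.2.1 _ _ (cyl_mem_siteAlg F u) hB t (fun s hs => hR s hs.le)).trans ?_
  have hinv : (π B).toReal = ∫ x, (Φ.K t x B).toReal ∂π := by
    have h1 : Φ.evolve^[t] π = π := Function.iterate_fixed h.1.2.1 t
    rw [evolve_iterate] at h1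
    conv_lhs => rw [← h1]
    rw [Measure.bind_apply hB' (measurable_K Φ t).aemeasurable]
    rw [integral_toReal]
    · exact ((Measure.measurable_coe hB').comp (measurable_K Φ t)).aemeasurable
    · refine Eventually.of_forall (fun x => ?_)
      have := prob_K Φ t x
      exact measure_lt_top _ _
  rw [hinv, ← integral_const_mul]
  refine integral_mono_of_nonneg (Eventually.of_forall fun x =>
    mul_nonneg (abs_nonneg _) (hnn t B x)) ?_ (Eventually.of_forall fun x => ?_)
  · refine Integrable.const_mul ?_ _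
    refine Integrable.of_bound
      (((Measure.measurable_coe hB').comp (measurable_K Φ t)).ennreal_toReal).aestronglyMeasurable 1
      (Eventually.of_forall fun x => ?_)
    rw [Real.norm_eq_abs, abs_of_nonneg (hnn _ _ _)]
    exact hle _ _ _
  · refine mul_le_mul_of_nonneg_right ?_ (hnn t B x)
    have := ht t le_rfl (Measure.dirac x) inferInstance
    rwa [← K_eq_evolve] at this

end PCABern
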