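import Pool.Agent.Lib.MP_91598f_pr.Support

/-!
# The relaxation dichotomy
-/

open MeasureTheory ProbabilityTheory Filter Topology Set
open scoped ENNReal

namespace PCABern

set_option linter.unusedSectionVars false
set_option linter.unusedVariables false

/-- The cube `{0, …, n-1}^d`. -/
noncomputable def box (d n : ℕ) : Finset (Site d) := Fintype.piFinset (fun _ : Fin d => Finset.Ico (0 : ℤ) n)

/-- The cube of side `n` with corner `v`. -/
noncomputable def blk {d : ℕ} (v : Site d) (n : ℕ) : Finset (Site d) :=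
  Fintype.piFinset (fun k => Finset.Ico (v k) (v k + n))

theorem card_box (d n : ℕ) : (box d n).card = n ^ d := by
  simp [box]

theorem card_blk {d : ℕ} (v : Site d) (n : ℕ) : (blk v n).card = n ^ d := by
  simp [blk]

theorem mem_box {d n : ℕ} {i : Site d} : i ∈ box d n ↔ ∀ k, 0 ≤ i k ∧ i k < n := by
  simp [box]

theorem mem_blk {d n : ℕ} {v i : Site d} : i ∈ blk v n ↔ ∀ k, v k ≤ i k ∧ i k < v k + n := by
  simp [blk]

theorem sub_mem_box {d n : ℕ} {v i : Site d} (h : i ∈ blk v n) : i - v ∈ box d n := by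
  rw [mem_blk] at h
  rw [mem_box]
  intro k
  have := h k
  simp only [Pi.sub_apply]
  constructor <;> omega

variable {A : Type} [Finite A] [Nonempty A] [MeasurableSpace A] [MeasurableSingletonClass A]
  {d : ℕ}

/-- Integrating a window function over an independent event. -/
theorem integral_indicator_indep {V : Finset (Site d)} {T : Set (Site d)}
    (μ : Measure (Config A d)) [IsProbabilityMeasure μ]
    (hμ : WinIndep (V : Set (Site d)) T μ) {B : Set (Config A d)}
    (hB : MeasurableSet[siteAlg A T] B) {F : Config A d → ℝ} (hF : HamLip V F) :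
    ∫ x, B.indicator F x ∂μ = (μ B).toReal * ∫ x, F x ∂μ := by
  have hB' : MeasurableSet B := siteAlg_le _ _ hB
  have hind : IndepFun (B.indicator (fun _ => (1 : ℝ))) F μ := by
    rw [indepFun_iff_measure_inter_preimage_eq_mul]
    intro s t hs ht
    rw [inter_comm, mul_comm]
    refine hμ _ _ (hF.measurable' ht) ?_
    exact (measurable_const.indicator hB : Measurable[siteAlg A T]
      (B.indicator (fun _ : Config A d => (1 : ℝ)))) hs
  have h := hind.integral_fun_mul_eq_mul_integral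
    (measurable_const.indicator hB').aestronglyMeasurable hF.measurable.aestronglyMeasurable
  have e1 : ∫ x, B.indicator (fun _ => (1 : ℝ)) x ∂μ = (μ B).toReal := by
    rw [integral_indicator hB']
    simp [measureReal_def]
  rw [e1] at h
  rw [← h]
  refine integral_congr_ae (Eventually.of_forall fun x => ?_)
  by_cases hx : x ∈ B <;> simp [hx]

/-- The core inequality for the conditional laws. -/
theorem cond_core {Φ : PCA A d} {π : Measure (Config A d)} [IsProbabilityMeasure π]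
    (hinv : Φ.evolve π = π) {r : ℕ} (hr : Speed Φ r) (t : ℕ) {V W : Finset (Site d)}
    (hVW : V ⊆ W) {T : Set (Site d)}
    (h : ∀ i ∈ V, ∀ k ∈ T, ((2 * (r * t) : ℕ) : ℝ) < ‖i - k‖) {B : Set (Config A d)}
    (hB : MeasurableSet[siteAlg A T] B) {F : Config A d → ℝ} (hF : HamLip W F) :
    ∫ x, B.indicator F x ∂π - (π B).toReal * ∫ x, F x ∂π
      ≤ ∫ x, (Φ.K t x B).toReal * dbar W (Φ.K t x) π ∂π
        + 2 * ((W \ V).card : ℝ) * (π B).toReal := by
  have hB' : MeasurableSet B := siteAlg_le _ _ hB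
  obtain ⟨F', hF', hc⟩ := hF.cut hVW
  set κ : ℝ := ((W \ V).card : ℝ) with hκ
  have hm : Measurable (fun x => (Φ.K t x B).toReal) :=
    ((Measure.measurable_coe hB').comp (measurable_K Φ t)).ennreal_toReal
  have hle : ∀ x, (Φ.K t x B).toReal ≤ 1 := fun x => measureReal_le_one
  have hnn : ∀ x, 0 ≤ (Φ.K t x B).toReal := fun x => ENNReal.toReal_nonneg
  have hBn : 0 ≤ (π B).toReal := ENNReal.toReal_nonneg
  have hinvB : (π B).toReal = ∫ x, (Φ.K t x B).toReal ∂π := by
    conv_lhs => rw [← bind_K hinv t]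
    rw [Measure.bind_apply hB' (measurable_K Φ t).aemeasurable]
    rw [integral_toReal]
    · exact ((Measure.measurable_coe hB').comp (measurable_K Φ t)).aemeasurable
    · exact Eventually.of_forall (fun x => measure_lt_top _ _)
  have hFi := hF.integrable π
  have hFi' := hF'.integrable π
  have h1 : ∫ x, B.indicator F x ∂π ≤ ∫ x, B.indicator F' x ∂π + κ * (π B).toReal := by
    have h2 : ∫ x, B.indicator F x ∂π ≤ ∫ x, (B.indicator F' x + B.indicator (fun _ => κ) x) ∂π := by
      refine integral_mono (hFi.indicator hB')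
        ((hFi'.indicator hB').add ((integrable_const κ).indicator hB')) (fun x => ?_)
      by_cases hx : x ∈ B
      · have := (abs_le.1 (hc x)).2
        simp only [hx, indicator_of_mem]
        linarith
      · simp [hx]
    rw [integral_add (hFi'.indicator hB') ((integrable_const κ).indicator hB'),
      integral_indicator hB' (f := fun _ => κ)] at h2
    simp only [integral_const, smul_eq_mul, measureReal_def, Measure.restrict_apply_univ] at h2
    linarith
  have h2 : ∫ x, F' x ∂π - κ ≤ ∫ x, F x ∂π := by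
    have h3 : ∫ x, (F' x - κ) ∂π ≤ ∫ x, F x ∂π := by
      refine integral_mono (hFi'.sub (integrable_const _)) hFi (fun x => ?_)
      have := (abs_le.1 (hc x)).1
      simp only
      linarith
    rw [integral_sub hFi' (integrable_const _)] at h3
    simp only [integral_const, probReal_univ, smul_eq_mul, one_mul] at h3
    linarith
  have h3 : ∫ x, B.indicator F' x ∂π = ∫ x, (Φ.K t x B).toReal * ∫ y, F' y ∂(Φ.K t x) ∂π := by
    rw [integral_K hinv t (hFi'.indicator hB')]
    refine integral_congr_ae (Eventually.of_forall fun x => ?_)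
    exact integral_indicator_indep _ (winIndep_K hr t (fun i hi k hk => h i hi k hk) x) hB hF'
  obtain ⟨C, hC⟩ := hF'.exists_bound
  have hi1 : Integrable (fun x => (Φ.K t x B).toReal * ∫ y, F' y ∂(Φ.K t x)) π := by
    refine (integrable_integral_K Φ π hF' t).bdd_mul hm.aestronglyMeasurable (c := 1)
      (Eventually.of_forall fun x => ?_)
    rw [Real.norm_eq_abs, abs_of_nonneg (hnn x)]
    exact hle x
  have hi2 : Integrable (fun x => (Φ.K t x B).toReal * ∫ y, F' y ∂π) π := by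
    refine (integrable_const (∫ y, F' y ∂π)).bdd_mul hm.aestronglyMeasurable (c := 1)
      (Eventually.of_forall fun x => ?_)
    rw [Real.norm_eq_abs, abs_of_nonneg (hnn x)]
    exact hle x
  have hi3 : Integrable (fun x => (Φ.K t x B).toReal * dbar W (Φ.K t x) π) π := by
    refine (integrable_dbar_K Φ π W t).bdd_mul hm.aestronglyMeasurable (c := 1)
      (Eventually.of_forall fun x => ?_)
    rw [Real.norm_eq_abs, abs_of_nonneg (hnn x)]
    exact hle x
  have h4 : ∫ x, B.indicator F' x ∂π - (π B).toReal * ∫ x, F' x ∂π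
      ≤ ∫ x, (Φ.K t x B).toReal * dbar W (Φ.K t x) π ∂π := by
    have e : (π B).toReal * ∫ x, F' x ∂π = ∫ x, (Φ.K t x B).toReal * ∫ y, F' y ∂π ∂π := by
      rw [integral_mul_const, ← hinvB]
    rw [h3, e, ← integral_sub hi1 hi2]
    refine integral_mono (hi1.sub hi2) hi3 (fun x => ?_)
    simp only
    rw [← mul_sub]
    refine mul_le_mul_of_nonneg_left ?_ (hnn x)
    exact le_dbar (hF'.mono hVW) _ _
  have h5 : (π B).toReal * (∫ x, F' x ∂π - κ) ≤ (π B).toReal * ∫ x, F x ∂π :=
    mul_le_mul_of_nonneg_left h2 hBn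
  nlinarith [h1, h4, h5]

theorem cond_dbar {Φ : PCA A d} {π : Measure (Config A d)} [IsProbabilityMeasure π]
    (hinv : Φ.evolve π = π) {r : ℕ} (hr : Speed Φ r) (t : ℕ) {V W : Finset (Site d)}
    (hVW : V ⊆ W) {T : Set (Site d)}
    (h : ∀ i ∈ V, ∀ k ∈ T, ((2 * (r * t) : ℕ) : ℝ) < ‖i - k‖) {B : Set (Config A d)}
    (hB : MeasurableSet[siteAlg A T] B) :
    (π B).toReal * dbar W (cond π B) π
      ≤ ∫ x, (Φ.K t x B).toReal * dbar W (Φ.K t x) π ∂π
        + 2 * ((W \ V).card : ℝ) * (π B).toReal := by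
  have hB' : MeasurableSet B := siteAlg_le _ _ hB
  by_cases h0 : π B = 0
  · have : 0 ≤ ∫ x, (Φ.K t x B).toReal * dbar W (Φ.K t x) π ∂π :=
      integral_nonneg (fun x => mul_nonneg ENNReal.toReal_nonneg (dbar_nonneg _ _ _))
    rw [h0]
    simpa using this
  · have hpos : 0 < (π B).toReal := ENNReal.toReal_pos h0 (measure_ne_top _ _)
    rw [mul_comm, ← le_div_iff₀ hpos]
    refine dbar_le (fun F hF => ?_)
    rw [le_div_iff₀ hpos]
    have h1 := cond_core hinv hr t hVW h hB hF
    have e : ∫ x, F x ∂(cond π B) = (π B).toReal⁻¹ * ∫ x, B.indicator F x ∂π := by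
      rw [integral_indicator hB', ProbabilityTheory.cond, integral_smul_measure,
        ENNReal.toReal_inv, smul_eq_mul]
    rw [e, sub_mul, mul_comm _ (π B).toReal, ← mul_assoc, mul_inv_cancel₀ hpos.ne', one_mul,
      mul_comm (∫ x, F x ∂π)]
    exact h1

theorem pow_gap {L p : ℝ} (hL : 0 < L) (hp : 0 ≤ p) (hpL : p ≤ L) (d : ℕ) :
    L ^ d - p ^ d ≤ d * ((L - p) / L) * L ^ d := by
  have h1 : -2 ≤ p / L - 1 := by
    have : 0 ≤ p / L := by positivity
    linarith
  have h2 := one_add_mul_le_pow h1 d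
  have h3 : (1 + (p / L - 1)) ^ d * L ^ d = p ^ d := by
    rw [← mul_pow]
    congr 1
    field_simp
    ring
  have h4 : (1 + (d : ℝ) * (p / L - 1)) * L ^ d ≤ p ^ d := by
    rw [← h3]
    exact mul_le_mul_of_nonneg_right h2 (by positivity)
  have h5 : (L - p) / L = -(p / L - 1) := by
    field_simp
    ring
  rw [h5]
  nlinarith [h4]

/-- Conditioning on the outside of a large box, general form. -/
theorem box_cond {Φ : PCA A d} {π : Measure (Config A d)} [IsProbabilityMeasure π]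
    (hinv : Φ.evolve π = π) {r : ℕ} (hr : Speed Φ r) (t : ℕ) {n : ℕ}
    (hn : 2 * (2 * (r * t)) ≤ n) (hn0 : 0 < n) {B : Set (Config A d)}
    (hB : MeasurableSet[siteAlg A {i : Site d | i ∉ box d n}] B) :
    (π B).toReal * dbar (box d n) (cond π B) π
      ≤ ∫ x, (Φ.K t x B).toReal * dbar (box d n) (Φ.K t x) π ∂π
        + 2 * (d * (((2 * (2 * (r * t)) : ℕ) : ℝ) / n) * n ^ d) * (π B).toReal := by
  obtain ⟨m, hm⟩ := Nat.exists_eq_add_of_le hn
  set g : ℕ := 2 * (r * t) with hg
  have hsub : blk (fun _ : Fin d => (g : ℤ)) m ⊆ box d n := by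
    intro i hi
    rw [mem_blk] at hi
    rw [mem_box]
    intro k
    have := hi k
    constructor <;> omega
  have hfar : ∀ i ∈ blk (fun _ : Fin d => (g : ℤ)) m, ∀ k ∈ {i : Site d | i ∉ box d n},
      ((2 * (r * t) : ℕ) : ℝ) < ‖i - k‖ := by
    intro i hi k hk
    rw [mem_blk] at hi
    change k ∉ box d n at hk
    rw [mem_box] at hk
    push Not at hk
    obtain ⟨c, hc⟩ := hk
    have h1 := hi c
    have h2 : (g : ℤ) < |i c - k c| := by
      rcases le_or_gt 0 (k c) with h0 | h0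
      · have := hc h0
        rw [lt_abs]
        right
        omega
      · rw [lt_abs]
        left
        omega
    have h3 : ‖(i - k) c‖ ≤ ‖i - k‖ := norm_le_pi_norm (i - k) c
    rw [Int.norm_eq_abs, Pi.sub_apply] at h3
    refine lt_of_lt_of_le ?_ h3
    exact_mod_cast h2
  refine (cond_dbar hinv hr t hsub hfar hB).trans ?_
  have hcard : ((box d n \ blk (fun _ : Fin d => (g : ℤ)) m).card : ℝ)
      ≤ d * (((2 * g : ℕ) : ℝ) / n) * n ^ d := by
    rw [Finset.card_sdiff_of_subset hsub, card_box, card_blk,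
      Nat.cast_sub (Nat.pow_le_pow_left (by omega) d)]
    push_cast
    have h1 := pow_gap (L := n) (p := m) (by exact_mod_cast hn0) (by positivity)
      (by exact_mod_cast (by omega : m ≤ n)) d
    have h2 : (n : ℝ) - m = 2 * g := by
      rw [hm]
      push_cast
      ring
    rw [h2] at h1
    exact h1
  have hBn : 0 ≤ (π B).toReal := ENNReal.toReal_nonneg
  have := mul_le_mul_of_nonneg_right hcard hBn
  nlinarith [this]

theorem tile_num {n g m L : ℝ} (hn : 0 < n) (hg : 0 ≤ g) (hm : 0 ≤ m) (hL : 0 < L)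
    (h : L ≤ (n + g) * (m + 1)) : (L - m * n) / L ≤ g / n + n / L := by
  have h1 : (n - g) * L ≤ n ^ 2 * (m + 1) := by
    have hpos : 0 < n + g := by linarith
    refine le_of_mul_le_mul_right ?_ hpos
    have h2 : n ^ 2 * L ≤ n ^ 2 * ((n + g) * (m + 1)) :=
      mul_le_mul_of_nonneg_left h (by positivity)
    nlinarith [mul_nonneg (mul_nonneg hg hg) hL.le]
  rw [div_add_div _ _ hn.ne' hL.ne', div_le_div_iff₀ hL (by positivity)]
  have h3 : (L - m * n) * n ≤ g * L + n * n := by nlinarith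
  calc (L - m * n) * (n * L) = ((L - m * n) * n) * L := by ring
    _ ≤ (g * L + n * n) * L := mul_le_mul_of_nonneg_right h3 hL.le

/-- Tiling a large box by well separated small boxes. -/
theorem tile {Φ : PCA A d} {π : Measure (Config A d)} [IsProbabilityMeasure π]
    (hinv : Φ.evolve π = π) {r : ℕ} (hr : Speed Φ r) (t : ℕ) {n L : ℕ} (hn : 0 < n) (hL : 0 < L) :
    ∃ (J : Finset (Fin d → ℕ)) (V : (Fin d → ℕ) → Site d),
      ((J.card : ℝ) * n ^ d ≤ L ^ d) ∧ ∀ x, dbar (box d L) (Φ.K t x) π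
        ≤ ∑ j ∈ J, (dbar (blk (V j) n) (Φ.K t x) π + ∫ y, dbar (blk (V j) n) (Φ.K t y) π ∂π)
          + 2 * (d * (((2 * (r * t) : ℕ) : ℝ) / n + (n : ℝ) / L) * L ^ d) := by
  classical
  set g : ℕ := 2 * (r * t) with hg
  set s : ℕ := n + g with hs
  set m : ℕ := L / s with hm
  let J : Finset (Fin d → ℕ) := Fintype.piFinset (fun _ : Fin d => Finset.range m)
  let V : (Fin d → ℕ) → Site d := fun j k => (s : ℤ) * (j k : ℤ)
  have hspos : 0 < s := by omega
  have hsm : s * m ≤ L := Nat.mul_div_le L s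
  have hmn : m * n ≤ L := le_trans (by rw [mul_comm]; exact Nat.mul_le_mul_right m (by omega)) hsm
  have hJ : J.card = m ^ d := by simp [J]
  have hfar : ∀ a ∈ J, ∀ b ∈ J, a ≠ b → ∀ i ∈ blk (V a) n, ∀ k ∈ blk (V b) n,
      (g : ℝ) < ‖i - k‖ := by
    intro a _ b _ hab i hi k hk
    rw [mem_blk] at hi hk
    obtain ⟨c, hc⟩ := Function.ne_iff.1 hab
    have h1 := hi c
    have h2 := hk c
    simp only [V] at h1 h2
    have h3 : (g : ℤ) < |i c - k c| := by
      rw [lt_abs]
      rcases lt_or_gt_of_ne hc with h | h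
      · right
        have h4 : (s : ℤ) * (a c : ℤ) + s ≤ (s : ℤ) * (b c : ℤ) := by
          have : (a c : ℤ) + 1 ≤ b c := by exact_mod_cast h
          nlinarith [this]
        have h5 : (s : ℤ) = n + g := by rw [hs]; push_cast; ring
        linarith [h1.1, h1.2, h2.1, h2.2]
      · left
        have h4 : (s : ℤ) * (b c : ℤ) + s ≤ (s : ℤ) * (a c : ℤ) := by
          have : (b c : ℤ) + 1 ≤ a c := by exact_mod_cast h
          nlinarith [this]
        have h5 : (s : ℤ) = n + g := by rw [hs]; push_cast; ring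
        linarith [h1.1, h1.2, h2.1, h2.2]
    have h4 : ‖(i - k) c‖ ≤ ‖i - k‖ := norm_le_pi_norm (i - k) c
    rw [Int.norm_eq_abs, Pi.sub_apply] at h4
    refine lt_of_lt_of_le ?_ h4
    exact_mod_cast h3
  have hsub : J.biUnion (fun j => blk (V j) n) ⊆ box d L := by
    intro i hi
    rw [Finset.mem_biUnion] at hi
    obtain ⟨j, hj, hi⟩ := hi
    rw [mem_blk] at hi
    rw [mem_box]
    intro k
    have h1 := hi k
    simp only [V] at h1
    have h2 : j k < m := by
      have := Fintype.mem_piFinset.1 hj k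
      simpa using this
    have h3 : (s : ℤ) * (j k : ℤ) + s ≤ L := by
      have h4 : s * (j k) + s ≤ s * m := by
        calc s * (j k) + s = s * (j k + 1) := by ring
          _ ≤ s * m := Nat.mul_le_mul_left s h2
      exact_mod_cast h4.trans hsm
    have h5 : (0 : ℤ) ≤ (s : ℤ) * (j k : ℤ) := by positivity
    have h6 : (s : ℤ) = n + g := by rw [hs]; push_cast; ring
    have h7 : (0 : ℤ) ≤ g := by positivity
    constructor <;> linarith [h1.1, h1.2]
  have hcardU : (J.biUnion (fun j => blk (V j) n)).card = m ^ d * n ^ d := by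
    rw [Finset.card_biUnion]
    · simp only [card_blk, Finset.sum_const, hJ, smul_eq_mul]
    · intro a ha b hb hab
      rw [Function.onFun, Finset.disjoint_left]
      intro i h1 h2
      have := hfar a ha b hb hab i h1 i h2
      rw [sub_self, norm_zero] at this
      exact absurd this (not_lt.2 (by positivity))
  have hcard : ((box d L \ J.biUnion (fun j => blk (V j) n)).card : ℝ)
      ≤ d * ((g : ℝ) / n + (n : ℝ) / L) * L ^ d := by
    rw [Finset.card_sdiff_of_subset hsub, card_box, hcardU, ← mul_pow,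
      Nat.cast_sub (Nat.pow_le_pow_left hmn d)]
    have h1 := pow_gap (L := L) (p := ((m * n : ℕ) : ℝ)) (by exact_mod_cast hL) (by positivity)
      (by exact_mod_cast hmn) d
    have h2 : (L : ℝ) ≤ ((n : ℝ) + g) * (m + 1) := by
      have h3 : L < s * (m + 1) := by
        rw [mul_comm]
        exact Nat.lt_mul_of_div_lt (Nat.lt_succ_self _) hspos
      have h4 : (L : ℝ) ≤ ((s * (m + 1) : ℕ) : ℝ) := by exact_mod_cast h3.le
      rw [hs] at h4
      push_cast at h4
      exact h4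
    have h3 := tile_num (n := n) (g := g) (m := m) (L := L) (by exact_mod_cast hn)
      (by positivity) (by positivity) (by exact_mod_cast hL) h2
    push_cast at h1 ⊢
    refine h1.trans ?_
    have hd : (0 : ℝ) ≤ d := by positivity
    have hLd : (0 : ℝ) ≤ (L : ℝ) ^ d := by positivity
    exact mul_le_mul_of_nonneg_right (mul_le_mul_of_nonneg_left h3 hd) hLd
  refine ⟨J, V, ?_, fun x => ?_⟩
  · rw [hJ]
    push_cast
    rw [← mul_pow]
    exact pow_le_pow_left₀ (by positivity) (by exact_mod_cast hmn) d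
  · have h1 := dbar_K_le hinv hr t (fun j => blk (V j) n) J hfar (box d L) hsub x
    linarith

theorem avg_step {Φ : PCA A d} {π : Measure (Config A d)} [IsProbabilityMeasure π]
    (hinv : Φ.evolve π = π) (hshift : ∀ v : Site d, π.map (shift v) = π) {r : ℕ}
    (hr : Speed Φ r) (t : ℕ) {n L : ℕ} (hn : 0 < n) (hL : 0 < L) {c : ℝ} (hc : 0 ≤ c)
    (h : ∫ x, dbar (box d n) (Φ.K t x) π ∂π ≤ c * n ^ d) :
    ∫ x, dbar (box d L) (Φ.K t x) π ∂π
      ≤ (2 * c + 2 * (d * (((2 * (r * t) : ℕ) : ℝ) / n + (n : ℝ) / L))) * L ^ d := by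
  obtain ⟨J, V, hJ, hx⟩ := tile (Φ := Φ) (π := π) hinv hr t hn hL
  set err : ℝ := 2 * (d * (((2 * (r * t) : ℕ) : ℝ) / n + (n : ℝ) / L) * L ^ d) with herr
  have hint : ∀ j ∈ J, Integrable (fun x => dbar (blk (V j) n) (Φ.K t x) π
      + ∫ y, dbar (blk (V j) n) (Φ.K t y) π ∂π) π := fun j _ =>
    (integrable_dbar_K Φ π _ t).add (integrable_const _)
  have h1 : ∫ x, dbar (box d L) (Φ.K t x) π ∂π
      ≤ ∫ x, (∑ j ∈ J, (dbar (blk (V j) n) (Φ.K t x) π
        + ∫ y, dbar (blk (V j) n) (Φ.K t y) π ∂π) + err) ∂π :=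
    integral_mono (integrable_dbar_K Φ π _ t)
      ((integrable_finset_sum _ hint).add (integrable_const _)) hx
  rw [integral_add (integrable_finset_sum _ hint) (integrable_const _),
    integral_finset_sum _ hint] at h1
  have h2 : ∀ j ∈ J, ∫ x, (dbar (blk (V j) n) (Φ.K t x) π
      + ∫ y, dbar (blk (V j) n) (Φ.K t y) π ∂π) ∂π ≤ 2 * (c * n ^ d) := by
    intro j _
    rw [integral_add (integrable_dbar_K Φ π _ t) (integrable_const _)]
    simp only [integral_const, probReal_univ, smul_eq_mul, one_mul]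
    have := (integral_dbar_K_shift (Φ := Φ) hshift (V j) (W := box d n) (W' := blk (V j) n)
      (fun i hi => sub_mem_box hi) t).trans h
    linarith
  have h3 := Finset.sum_le_sum h2
  rw [Finset.sum_const, nsmul_eq_mul] at h3
  simp only [integral_const, probReal_univ, smul_eq_mul, one_mul] at h1
  have h4 : (J.card : ℝ) * (2 * (c * n ^ d)) ≤ 2 * c * L ^ d := by
    have := mul_le_mul_of_nonneg_left hJ (by positivity : 0 ≤ 2 * c)
    linarith
  rw [herr] at h1
  linarith

theorem inSupp_shift {π : Measure (Config A d)} (hshift : ∀ v : Site d, π.map (shift v) = π)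
    (v : Site d) {x : Config A d} (hx : InSupp π x) : InSupp π (shift v x) := by
  classical
  intro F
  have h1 := hx (F.image (fun i => i + v))
  intro h0
  apply h1
  rw [← hshift v, Measure.map_apply (measurable_shift v) (measurableSet_cyl _ _)] at h0
  refine measure_mono_null (fun y hy => ?_) h0
  intro i
  have h2 := hy ⟨i.1 + v, Finset.mem_image_of_mem (fun i => i + v) i.2⟩
  exact h2

theorem supp_step {Φ : PCA A d} {π : Measure (Config A d)} [IsProbabilityMeasure π]
    (hinv : Φ.evolve π = π) (hshift : ∀ v : Site d, π.map (shift v) = π) {r : ℕ}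
    (hr : Speed Φ r) (t : ℕ) {n L : ℕ} (hn : 0 < n) (hL : 0 < L) {c : ℝ} (hc : 0 ≤ c)
    (h : ∀ x, InSupp π x → dbar (box d n) (Φ.K t x) π ≤ c * n ^ d) (x : Config A d)
    (hx' : InSupp π x) :
    dbar (box d L) (Φ.K t x) π
      ≤ (2 * c + 2 * (d * (((2 * (r * t) : ℕ) : ℝ) / n + (n : ℝ) / L))) * L ^ d := by
  obtain ⟨J, V, hJ, hx⟩ := tile (Φ := Φ) (π := π) hinv hr t hn hL
  have h0 : ∀ j y, InSupp π y → dbar (blk (V j) n) (Φ.K t y) π ≤ c * n ^ d := fun j y hy =>
    (dbar_K_shift hshift (V j) (fun i hi => sub_mem_box hi) t y).trans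
      (h _ (inSupp_shift hshift _ hy))
  have h2 : ∀ j ∈ J, (dbar (blk (V j) n) (Φ.K t x) π
      + ∫ y, dbar (blk (V j) n) (Φ.K t y) π ∂π) ≤ 2 * (c * n ^ d) := by
    intro j _
    have h3 : ∫ y, dbar (blk (V j) n) (Φ.K t y) π ∂π ≤ ∫ _y, c * (n : ℝ) ^ d ∂π := by
      refine integral_mono_ae (integrable_dbar_K Φ π _ t) (integrable_const _) ?_
      filter_upwards [ae_inSupp π] with y hy
      exact h0 j y hy
    simp only [integral_const, probReal_univ, smul_eq_mul, one_mul] at h3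
    have := h0 j x hx'
    linarith
  have h3 := Finset.sum_le_sum h2
  rw [Finset.sum_const, nsmul_eq_mul] at h3
  have h4 : (J.card : ℝ) * (2 * (c * n ^ d)) ≤ 2 * c * L ^ d := by
    have := mul_le_mul_of_nonneg_left hJ (by positivity : 0 ≤ 2 * c)
    linarith
  have := hx x
  linarith

/-- The numerical choice of the scales. -/
theorem scales (d r : ℕ) {ε : ℝ} (hε : 0 < ε) : ∃ ε' : ℝ, 0 < ε' ∧ ∀ n t : ℕ, 0 < n →
    (t : ℝ) ≤ ε' * n → ∃ n₀ : ℕ, 0 < n₀ ∧ ∀ L, n₀ ≤ L →
      (2 * ε' + 2 * (d * (((2 * (r * t) : ℕ) : ℝ) / n + (n : ℝ) / L))) ≤ ε := by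
  refine ⟨ε / (2 * (2 + 4 * d * r)), by positivity, fun n t hn ht => ?_⟩
  set ε' := ε / (2 * (2 + 4 * (d : ℝ) * r)) with hε'
  have hn' : (0 : ℝ) < n := by exact_mod_cast hn
  refine ⟨⌈4 * d * n / ε⌉₊ + 1, by omega, fun L hL => ?_⟩
  have hL0 : 0 < L := by omega
  have hL' : (0 : ℝ) < L := by exact_mod_cast hL0
  have h1 : 4 * d * n / ε ≤ L := by
    refine (Nat.le_ceil _).trans ?_
    exact_mod_cast (by omega : ⌈4 * (d : ℝ) * n / ε⌉₊ ≤ L)
  have h2 : 2 * (d * ((n : ℝ) / L)) ≤ ε / 2 := by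
    rw [div_le_iff₀ hε] at h1
    have : 2 * (d * ((n : ℝ) / L)) = (4 * d * n) / (2 * L) := by
      field_simp
      ring
    rw [this, div_le_div_iff₀ (by positivity) (by norm_num)]
    nlinarith
  have h3 : ((2 * (r * t) : ℕ) : ℝ) / n ≤ 2 * r * ε' := by
    rw [div_le_iff₀ hn']
    push_cast
    have := mul_le_mul_of_nonneg_left ht (by positivity : (0 : ℝ) ≤ 2 * r)
    linarith
  have h4 : 2 * (d * (((2 * (r * t) : ℕ) : ℝ) / n)) ≤ 4 * d * r * ε' := by
    have := mul_le_mul_of_nonneg_left h3 (by positivity : (0 : ℝ) ≤ 2 * d)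
    linarith
  have h5 : (2 + 4 * (d : ℝ) * r) * ε' = ε / 2 := by
    rw [hε']
    field_simp
  nlinarith

/-- If relaxation on boxes is faster than linear on average, then it takes bounded time. -/
theorem relax_avg {Φ : PCA A d} {π : Measure (Config A d)} [IsProbabilityMeasure π]
    (hinv : Φ.evolve π = π) (hshift : ∀ v : Site d, π.map (shift v) = π)
    (H : ∀ ε : ℝ, 0 < ε → ∃ n t : ℕ, 0 < n ∧ (t : ℝ) ≤ ε * n ∧
      ∫ x, dbar (box d n) (Φ.K t x) π ∂π ≤ ε * n ^ d) (ε : ℝ) (hε : 0 < ε) :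
    ∃ t n₀ : ℕ, ∀ n, n₀ ≤ n → ∫ x, dbar (box d n) (Φ.K t x) π ∂π ≤ ε * n ^ d := by
  obtain ⟨r, hr⟩ := mem_cone_nat Φ
  obtain ⟨ε', hε', hsc⟩ := scales d r hε
  obtain ⟨n, t, hn, ht, h⟩ := H ε' hε'
  obtain ⟨n₀, hn₀, hL⟩ := hsc n t hn ht
  refine ⟨t, n₀, fun L hLn => ?_⟩
  refine (avg_step hinv hshift hr t hn (by omega) hε'.le h).trans ?_
  exact mul_le_mul_of_nonneg_right (hL L hLn) (by positivity)

theorem relax_supp {Φ : PCA A d} {π : Measure (Config A d)} [IsProbabilityMeasure π]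
    (hinv : Φ.evolve π = π) (hshift : ∀ v : Site d, π.map (shift v) = π)
    (H : ∀ ε : ℝ, 0 < ε → ∃ n t : ℕ, 0 < n ∧ (t : ℝ) ≤ ε * n ∧
      ∀ x, InSupp π x → dbar (box d n) (Φ.K t x) π ≤ ε * n ^ d) (ε : ℝ) (hε : 0 < ε) :
    ∃ t n₀ : ℕ, ∀ n, n₀ ≤ n → ∀ x, InSupp π x →
      dbar (box d n) (Φ.K t x) π ≤ ε * n ^ d := by
  obtain ⟨r, hr⟩ := mem_cone_nat Φ
  obtain ⟨ε', hε', hsc⟩ := scales d r hε
  obtain ⟨n, t, hn, ht, h⟩ := H ε' hε'
  obtain ⟨n₀, hn₀, hL⟩ := hsc n t hn ht
  refine ⟨t, n₀, fun L hLn x hx => ?_⟩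
  refine (supp_step hinv hshift hr t hn (by omega) hε'.le h x hx).trans ?_
  exact mul_le_mul_of_nonneg_right (hL L hLn) (by positivity)

/-- The boundary term is small for large boxes. -/
theorem boundary_small (d g : ℕ) {ε : ℝ} (hε : 0 < ε) : ∃ n₀ : ℕ, ∀ n, n₀ ≤ n →
    2 * g ≤ n ∧ 0 < n ∧ 2 * (d * (((2 * g : ℕ) : ℝ) / n) * (n : ℝ) ^ d) ≤ ε * n ^ d := by
  refine ⟨⌈4 * d * g / ε⌉₊ + 2 * g + 1, fun n hn => ⟨by omega, by omega, ?_⟩⟩
  have hn0 : 0 < n := by omega
  have hn' : (0 : ℝ) < n := by exact_mod_cast hn0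
  have h1 : 4 * d * g / ε ≤ n := by
    refine (Nat.le_ceil _).trans ?_
    exact_mod_cast (by omega : ⌈4 * (d : ℝ) * g / ε⌉₊ ≤ n)
  rw [div_le_iff₀ hε] at h1
  have h2 : 2 * (d * (((2 * g : ℕ) : ℝ) / n)) ≤ ε := by
    have : 2 * ((d : ℝ) * (((2 * g : ℕ) : ℝ) / n)) = (4 * d * g) / n := by
      push_cast
      field_simp
      ring
    rw [this, div_le_iff₀ hn']
    linarith
  have := mul_le_mul_of_nonneg_right h2 (by positivity : (0 : ℝ) ≤ (n : ℝ) ^ d)
  linarith

theorem sum_disjoint_le_one (μ : Measure (Config A d)) [IsProbabilityMeasure μ] {k : ℕ}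
    {B : Fin k → Set (Config A d)} (hB : ∀ i, MeasurableSet (B i))
    (hd : Pairwise (Function.onFun Disjoint B)) : ∑ i, (μ (B i)).toReal ≤ 1 := by
  rw [← ENNReal.toReal_sum (fun i _ => measure_ne_top _ _)]
  have h : ∑ i, μ (B i) = μ (⋃ i, B i) := by
    rw [measure_iUnion hd hB, tsum_fintype]
  rw [h]
  exact measureReal_le_one

theorem vwb_avg {Φ : PCA A d} {π : Measure (Config A d)} [IsProbabilityMeasure π]
    (hinv : Φ.evolve π = π)
    (H : ∀ ε : ℝ, 0 < ε → ∃ t n₀ : ℕ, ∀ n, n₀ ≤ n →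
      ∫ x, dbar (box d n) (Φ.K t x) π ∂π ≤ ε * n ^ d) (ε : ℝ) (hε : 0 < ε) :
    ∃ n₀ : ℕ, ∀ n, n₀ ≤ n → ∀ (k : ℕ) (B : Fin k → Set (Config A d)),
      (∀ i, MeasurableSet[siteAlg A {i : Site d | i ∉ box d n}] (B i)) →
      Pairwise (Function.onFun Disjoint B) →
      ∑ i, (π (B i)).toReal * dbar (box d n) (cond π (B i)) π ≤ ε * n ^ d := by
  obtain ⟨r, hr⟩ := mem_cone_nat Φ
  obtain ⟨t, n₁, h1⟩ := H (ε / 2) (by positivity)
  obtain ⟨n₂, h2⟩ := boundary_small d (2 * (r * t)) (ε := ε / 2) (by positivity)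
  refine ⟨max n₁ n₂, fun n hn k B hB hd => ?_⟩
  obtain ⟨h3, h4, h5⟩ := h2 n (le_trans (le_max_right _ _) hn)
  have h6 := h1 n (le_trans (le_max_left _ _) hn)
  have hB' : ∀ i, MeasurableSet (B i) := fun i => siteAlg_le _ _ (hB i)
  have h7 := Finset.sum_le_sum (fun i (_ : i ∈ (Finset.univ : Finset (Fin k))) =>
    box_cond hinv hr t h3 h4 (hB i))
  refine h7.trans ?_
  rw [Finset.sum_add_distrib, ← Finset.mul_sum]
  have hm : ∀ i, Measurable (fun x => (Φ.K t x (B i)).toReal) := fun i =>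
    ((Measure.measurable_coe (hB' i)).comp (measurable_K Φ t)).ennreal_toReal
  have hi : ∀ i ∈ (Finset.univ : Finset (Fin k)),
      Integrable (fun x => (Φ.K t x (B i)).toReal * dbar (box d n) (Φ.K t x) π) π := by
    intro i _
    refine (integrable_dbar_K Φ π _ t).bdd_mul (hm i).aestronglyMeasurable (c := 1)
      (Eventually.of_forall fun x => ?_)
    rw [Real.norm_eq_abs, abs_of_nonneg ENNReal.toReal_nonneg]
    exact measureReal_le_one
  have h8 : ∑ i, ∫ x, (Φ.K t x (B i)).toReal * dbar (box d n) (Φ.K t x) π ∂π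
      ≤ ∫ x, dbar (box d n) (Φ.K t x) π ∂π := by
    rw [← integral_finset_sum _ hi]
    refine integral_mono (integrable_finset_sum _ hi) (integrable_dbar_K Φ π _ t) (fun x => ?_)
    simp only
    rw [← Finset.sum_mul]
    have h9 := sum_disjoint_le_one (Φ.K t x) hB' hd
    have := mul_le_mul_of_nonneg_right h9 (dbar_nonneg (box d n) (Φ.K t x) π)
    linarith
  have h9 := sum_disjoint_le_one π hB' hd
  have h10 := mul_le_mul h5 h9 (Finset.sum_nonneg fun i _ => ENNReal.toReal_nonneg)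
    (by positivity)
  linarith

theorem vwb_supp {Φ : PCA A d} {π : Measure (Config A d)} [IsProbabilityMeasure π]
    (hinv : Φ.evolve π = π)
    (H : ∀ ε : ℝ, 0 < ε → ∃ t n₀ : ℕ, ∀ n, n₀ ≤ n →
      ∀ x, InSupp π x → dbar (box d n) (Φ.K t x) π ≤ ε * n ^ d) (ε : ℝ) (hε : 0 < ε) :
    ∃ n₀ : ℕ, ∀ n, n₀ ≤ n → ∀ B : Set (Config A d),
      MeasurableSet[siteAlg A {i : Site d | i ∉ box d n}] B → π B ≠ 0 →
      dbar (box d n) (cond π B) π ≤ ε * n ^ d := by
  obtain ⟨r, hr⟩ := mem_cone_nat Φ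
  obtain ⟨t, n₁, h1⟩ := H (ε / 2) (by positivity)
  obtain ⟨n₂, h2⟩ := boundary_small d (2 * (r * t)) (ε := ε / 2) (by positivity)
  refine ⟨max n₁ n₂, fun n hn B hB h0 => ?_⟩
  obtain ⟨h3, h4, h5⟩ := h2 n (le_trans (le_max_right _ _) hn)
  have h6 := h1 n (le_trans (le_max_left _ _) hn)
  have hB' : MeasurableSet B := siteAlg_le _ _ hB
  have hpos : 0 < (π B).toReal := ENNReal.toReal_pos h0 (measure_ne_top _ _)
  have h7 := box_cond hinv hr t h3 h4 hB
  have hm : Measurable (fun x => (Φ.K t x B).toReal) :=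
    ((Measure.measurable_coe hB').comp (measurable_K Φ t)).ennreal_toReal
  have hi1 : Integrable (fun x => (Φ.K t x B).toReal * dbar (box d n) (Φ.K t x) π) π := by
    refine (integrable_dbar_K Φ π _ t).bdd_mul hm.aestronglyMeasurable (c := 1)
      (Eventually.of_forall fun x => ?_)
    rw [Real.norm_eq_abs, abs_of_nonneg ENNReal.toReal_nonneg]
    exact measureReal_le_one
  have hi2 : Integrable (fun x => (Φ.K t x B).toReal) π := by
    refine Integrable.of_bound hm.aestronglyMeasurable 1 (Eventually.of_forall fun x => ?_)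
    rw [Real.norm_eq_abs, abs_of_nonneg ENNReal.toReal_nonneg]
    exact measureReal_le_one
  have hinvB : (π B).toReal = ∫ x, (Φ.K t x B).toReal ∂π := by
    conv_lhs => rw [← bind_K hinv t]
    rw [Measure.bind_apply hB' (measurable_K Φ t).aemeasurable]
    rw [integral_toReal]
    · exact ((Measure.measurable_coe hB').comp (measurable_K Φ t)).aemeasurable
    · exact Eventually.of_forall (fun x => measure_lt_top _ _)
  have h8 : ∫ x, (Φ.K t x B).toReal * dbar (box d n) (Φ.K t x) π ∂π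
      ≤ (π B).toReal * (ε / 2 * n ^ d) := by
    rw [hinvB, ← integral_mul_const]
    refine integral_mono_ae hi1 (hi2.mul_const _) ?_
    filter_upwards [ae_inSupp π] with x hx
    exact mul_le_mul_of_nonneg_left (h6 x hx) ENNReal.toReal_nonneg
  have h9 := mul_le_mul_of_nonneg_right h5 hpos.le
  refine le_of_mul_le_mul_left ?_ hpos
  linarith

end PCABern
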