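import Pool.Agent.Lib.MP_91598f_pr.Support
import Pool.Agent.Lib.MP_91598f_pr.Dichotomy

/-!
# Consequences of the uniform convergence on the support
-/

open MeasureTheory ProbabilityTheory Filter Topology Set
open scoped ENNReal

namespace PCABern

set_option linter.unusedSectionVars false
set_option linter.unusedVariables false

variable {A : Type} [Finite A] [Nonempty A] [MeasurableSpace A] [MeasurableSingletonClass A]
  {d : ℕ}

/-- Uniform convergence for all the initial laws carried by the support. -/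
theorem uniform_supp_law {Φ : PCA A d} {π : Measure (Config A d)} (h : Φ.Ergodic π)
    (F : Finset (Site d)) (u : F → A) (ε : ℝ) (hε : 0 < ε) :
    ∃ T : ℕ, ∀ t, T ≤ t → ∀ μ : Measure (Config A d), IsProbabilityMeasure μ →
      (∀ᵐ x ∂μ, InSupp π x) →
      |(Φ.evolve^[t] μ (cyl F u)).toReal - (π (cyl F u)).toReal| ≤ ε := by
  have hp : IsProbabilityMeasure π := h.1
  obtain ⟨T, hT⟩ := uniform_supp h F u ε hε
  refine ⟨T, fun t ht μ hμ hs => ?_⟩
  have hcyl := measurableSet_cyl F u
  have hm : Measurable (fun x => (Φ.K t x (cyl F u)).toReal) :=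
    ((Measure.measurable_coe hcyl).comp (measurable_K Φ t)).ennreal_toReal
  have hle : ∀ x, (Φ.K t x (cyl F u)).toReal ≤ 1 := fun x => measureReal_le_one
  have hnn : ∀ x, 0 ≤ (Φ.K t x (cyl F u)).toReal := fun x => ENNReal.toReal_nonneg
  have e : (Φ.evolve^[t] μ (cyl F u)).toReal = ∫ x, (Φ.K t x (cyl F u)).toReal ∂μ := by
    rw [evolve_iterate, Measure.bind_apply hcyl (measurable_K Φ t).aemeasurable, integral_toReal]
    · exact ((Measure.measurable_coe hcyl).comp (measurable_K Φ t)).aemeasurable
    · exact Eventually.of_forall (fun x => measure_lt_top _ _)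
  have hint : Integrable (fun x => (Φ.K t x (cyl F u)).toReal) μ := by
    refine Integrable.of_bound hm.aestronglyMeasurable 1 (Eventually.of_forall fun x => ?_)
    rw [Real.norm_eq_abs, abs_of_nonneg (hnn x)]
    exact hle x
  have e1 : (Φ.evolve^[t] μ (cyl F u)).toReal - (π (cyl F u)).toReal
      = ∫ x, ((Φ.K t x (cyl F u)).toReal - (π (cyl F u)).toReal) ∂μ := by
    rw [integral_sub hint (integrable_const _), e]
    simp
  rw [e1]
  refine abs_integral_le_integral_abs.trans ?_
  have : ∫ x, |(Φ.K t x (cyl F u)).toReal - (π (cyl F u)).toReal| ∂μ ≤ ∫ _x, ε ∂μ := by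
    refine integral_mono_of_nonneg (Eventually.of_forall fun y => abs_nonneg _)
      (integrable_const _) ?_
    filter_upwards [hs] with x hx
    exact hT t ht x hx
  simpa using this

/-- If every cylinder is charged, an ergodic PCA is uniformly ergodic. -/
theorem uniformlyErgodic_of_full {Φ : PCA A d} {π : Measure (Config A d)} (h : Φ.Ergodic π)
    (hf : ∀ (F : Finset (Site d)) (u : F → A), π (cyl F u) ≠ 0) : Φ.UniformlyErgodic π := by
  refine ⟨h, fun F u ε hε => ?_⟩
  obtain ⟨T, hT⟩ := uniform_supp_law h F u ε hε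
  exact ⟨T, fun t ht μ hμ => hT t ht μ hμ (Eventually.of_forall fun x G => hf G _)⟩

/-- Windows are uniformly close to independent of far events, for every ergodic PCA. -/
theorem supp_window {Φ : PCA A d} {π : Measure (Config A d)} (h : Φ.Ergodic π)
    (F : Finset (Site d)) (u : F → A) (ε : ℝ) (hε : 0 < ε) :
    ∃ R : ℝ, ∀ B : Set (Config A d), MeasurableSet[farAlg A d R] B →
      |(π (cyl F u ∩ B)).toReal - (π (cyl F u)).toReal * (π B).toReal| ≤ ε * (π B).toReal := by
  have hp : IsProbabilityMeasure π := h.1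
  obtain ⟨t, ht⟩ := uniform_supp h F u ε hε
  obtain ⟨R, hR⟩ := cone_disjoint Φ F t
  refine ⟨R, fun B hB => ?_⟩
  have hB' : MeasurableSet B := siteAlg_le _ _ hB
  have hnn : ∀ t G x, 0 ≤ (Φ.K t x G).toReal := fun t G x => ENNReal.toReal_nonneg
  have hle : ∀ t G x, (Φ.K t x G).toReal ≤ 1 := fun t G x => measureReal_le_one
  refine (cov_bound Φ π h.2.1 _ _ (cyl_mem_siteAlg F u) hB t (fun s hs => hR s hs.le)).trans ?_
  have hinv : (π B).toReal = ∫ x, (Φ.K t x B).toReal ∂π := by
    conv_lhs => rw [← bind_K h.2.1 t]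
    rw [Measure.bind_apply hB' (measurable_K Φ t).aemeasurable]
    rw [integral_toReal]
    · exact ((Measure.measurable_coe hB').comp (measurable_K Φ t)).aemeasurable
    · exact Eventually.of_forall (fun x => measure_lt_top _ _)
  rw [hinv, ← integral_const_mul]
  refine integral_mono_of_nonneg (Eventually.of_forall fun x =>
    mul_nonneg (abs_nonneg _) (hnn t B x)) ?_ ?_
  · refine Integrable.const_mul ?_ _
    refine Integrable.of_bound
      (((Measure.measurable_coe hB').comp (measurable_K Φ t)).ennreal_toReal).aestronglyMeasurable 1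
      (Eventually.of_forall fun x => ?_)
    rw [Real.norm_eq_abs, abs_of_nonneg (hnn _ _ _)]
    exact hle _ _ _
  · filter_upwards [ae_inSupp π] with x hx
    exact mul_le_mul_of_nonneg_right (ht t le_rfl x hx) (hnn t B x)

/-- Uniform multiple mixing for the invariant law of every ergodic PCA. -/
theorem supp_mixing {Φ : PCA A d} {π : Measure (Config A d)} (h : Φ.Ergodic π)
    {k : ℕ} (F : Fin k → Finset (Site d)) (u : ∀ i, F i → A) (ε : ℝ) (hε : 0 < ε) :
    ∃ R : ℝ, ∀ v : Fin k → Site d, (∀ i j, i ≠ j → R < ‖v i - v j‖) →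
      ∀ B : Set (Config A d), MeasurableSet[siteAlg A {i : Site d | ∀ j, R < ‖i - v j‖}] B →
      |(π ((⋂ i, shift (v i) ⁻¹' cyl (F i) (u i)) ∩ B)).toReal
        - (∏ i, (π (cyl (F i) (u i))).toReal) * (π B).toReal| ≤ ε * (π B).toReal := by
  have hp : IsProbabilityMeasure π := h.1
  have hδ : 0 < ε / (k + 1) := by positivity
  choose R₀ hR₀ using fun i => supp_window h (F i) (u i) (ε / (k + 1)) hδ
  obtain ⟨R, hR⟩ := multi_window h (fun B => (π B).toReal) (fun _ => ENNReal.toReal_nonneg)
    (fun X B => ENNReal.toReal_mono (measure_ne_top _ _) (measure_mono inter_subset_right))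
    (fun v B hB => by simp only [measure_shift h v hB])
    (fun i => cyl (F i) (u i)) F (fun i => cyl_mem_siteAlg _ _) (ε / (k + 1)) hδ.le R₀ hR₀
  refine ⟨R, fun v hv B hB => ?_⟩
  have h1 := hR v hv B hB Finset.univ
  simp only [Finset.mem_univ, iInter_true, Finset.card_univ, Fintype.card_fin] at h1
  refine h1.trans (mul_le_mul_of_nonneg_right ?_ ENNReal.toReal_nonneg)
  rw [mul_div_assoc', div_le_iff₀ (by positivity)]
  nlinarith

end PCABern
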