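import Pool.Agent.Lib.MP_91598f_pr.Vwb

/-!
# Ergodic PCA converge uniformly on the support of the invariant law
-/

open MeasureTheory ProbabilityTheory Filter Topology Set
open scoped ENNReal

namespace PCABern

set_option linter.unusedSectionVars false
set_option linter.unusedVariables false

/-- `x` lies in the support of `π`: every cylinder around `x` has positive probability. -/
def InSupp {A : Type} [MeasurableSpace A] {d : ℕ} (π : Measure (Config A d))
    (x : Config A d) : Prop :=
  ∀ F : Finset (Site d), π (cyl F (fun i => x i.1)) ≠ 0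

variable {A : Type} [Finite A] [Nonempty A] [MeasurableSpace A] [MeasurableSingletonClass A]
  {d : ℕ}

/-- A law which vanishes on all the cylinders which `π` does not charge is carried by the
support. -/
theorem ae_inSupp_of_null (π μ : Measure (Config A d))
    (h : ∀ (F : Finset (Site d)) (u : F → A), π (cyl F u) = 0 → μ (cyl F u) = 0) :
    ∀ᵐ x ∂μ, InSupp π x := by
  unfold InSupp
  rw [ae_all_iff]
  intro F
  rw [ae_iff]
  have hsub : {x : Config A d | ¬ π (cyl F (fun i => x i.1)) ≠ 0}
      ⊆ ⋃ u ∈ {u : F → A | π (cyl F u) = 0}, cyl F u := by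
    intro x hx
    have hx' : π (cyl F (fun i => x i.1)) = 0 := not_not.1 hx
    simp only [mem_iUnion]
    exact ⟨fun i => x i.1, hx', fun i => rfl⟩
  refine measure_mono_null hsub ?_
  rw [measure_biUnion_null_iff (Set.to_countable _)]
  exact fun u hu => h F u hu

theorem ae_inSupp (π : Measure (Config A d)) : ∀ᵐ x ∂π, InSupp π x :=
  ae_inSupp_of_null π π (fun _ _ h => h)

theorem K_null {Φ : PCA A d} {π : Measure (Config A d)} (hinv : Φ.evolve π = π) {x : Config A d}
    (hx : InSupp π x) (s : ℕ) (F : Finset (Site d)) {E : Set (Config A d)}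
    (hE : MeasurableSet[siteAlg A (F : Set (Site d))] E) (h0 : π E = 0) : Φ.K s x E = 0 := by
  have hE' : MeasurableSet E := siteAlg_le _ _ hE
  by_contra hne
  have h1 : ∫⁻ y, Φ.K s y E ∂π = 0 := by
    rw [← Measure.bind_apply hE' (measurable_K Φ s).aemeasurable, bind_K hinv s]
    exact h0
  have hmeas : Measurable (fun y => Φ.K s y E) :=
    (Measure.measurable_coe hE').comp (measurable_K Φ s)
  rw [lintegral_eq_zero_iff hmeas] at h1
  have hfin := cone_finite Φ F.finite_toSet s
  refine hx hfin.toFinset ?_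
  rw [EventuallyEq, ae_iff] at h1
  refine measure_mono_null (fun y hy => ?_) h1
  have h2 : Φ.K s y E = Φ.K s x E :=
    eq_of_siteAlg (g := fun y => Φ.K s y E) (K_local Φ F hE s)
      (fun i hi => hy ⟨i, hfin.mem_toFinset.2 hi⟩)
  change ¬ Φ.K s y E = 0
  rw [h2]
  exact hne

theorem K_ae_inSupp {Φ : PCA A d} {π : Measure (Config A d)} (hinv : Φ.evolve π = π)
    {x : Config A d} (hx : InSupp π x) (s : ℕ) : ∀ᵐ y ∂(Φ.K s x), InSupp π y :=
  ae_inSupp_of_null π _ (fun F u h => K_null hinv hx s F (cyl_mem_siteAlg F u) h)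

theorem K_add (Φ : PCA A d) (s t : ℕ) (x : Config A d) :
    Φ.K (s + t) x = (Φ.K s x).bind (Φ.K t) := by
  rw [K_eq_evolve, K_eq_evolve, add_comm, Function.iterate_add_apply, ← evolve_iterate]

theorem K_add_apply (Φ : PCA A d) (s t : ℕ) (x : Config A d) {E : Set (Config A d)}
    (hE : MeasurableSet E) :
    (Φ.K (s + t) x E).toReal = ∫ y, (Φ.K t y E).toReal ∂(Φ.K s x) := by
  rw [K_add, Measure.bind_apply hE (measurable_K Φ t).aemeasurable, integral_toReal]
  · exact ((Measure.measurable_coe hE).comp (measurable_K Φ t)).aemeasurable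
  · exact Eventually.of_forall (fun x => measure_lt_top _ _)

theorem tendsto_K {Φ : PCA A d} {π : Measure (Config A d)} (h : Φ.Ergodic π)
    (F : Finset (Site d)) (u : F → A) (x : Config A d) :
    Tendsto (fun t => (Φ.K t x (cyl F u)).toReal) atTop (𝓝 (π (cyl F u)).toReal) := by
  have hp : IsProbabilityMeasure π := h.1
  have h1 := h.2.2.2 (Measure.dirac x) inferInstance F u
  have h2 := (ENNReal.tendsto_toReal (measure_ne_top π (cyl F u))).comp h1
  simp only [K_eq_evolve]
  exact h2

/-- A good pattern: if it is present in the initial configuration, then the law of the window is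
close to equilibrium at all large times. -/
theorem good_pattern {Φ : PCA A d} {π : Measure (Config A d)} (h : Φ.Ergodic π)
    (F : Finset (Site d)) (u : F → A) (ε : ℝ) (hε : 0 < ε) :
    ∃ (V : Finset (Site d)) (x₀ : Config A d) (T : ℕ), InSupp π x₀ ∧
      ∀ t, T ≤ t → ∀ x, InSupp π x → (∀ i ∈ V, x i = x₀ i) →
        |(Φ.K t x (cyl F u)).toReal - (π (cyl F u)).toReal| ≤ ε := by
  classical
  have hp : IsProbabilityMeasure π := h.1
  by_contra hcon
  push Not at hcon
  -- one step
  have step : ∀ (n : ℕ) (s : {p : Finset (Site d) × Config A d // InSupp π p.2}),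
      ∃ s' : {p : Finset (Site d) × Config A d // InSupp π p.2}, s.1.1 ⊆ s'.1.1 ∧
        (∀ i ∈ s.1.1, s'.1.2 i = s.1.2 i) ∧ ∃ t, n ≤ t ∧
          (∀ i ∈ Φ.cone (F : Set (Site d)) t, i ∈ s'.1.1) ∧
          ε < |(Φ.K t s'.1.2 (cyl F u)).toReal - (π (cyl F u)).toReal| := by
    intro n s
    obtain ⟨t, ht, x, hx, hxV, hlt⟩ := hcon s.1.1 s.1.2 n s.2
    have hfin := cone_finite Φ F.finite_toSet t
    refine ⟨⟨(s.1.1 ∪ hfin.toFinset, x), hx⟩, Finset.subset_union_left, hxV, t, ht, ?_, hlt⟩
    intro i hi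
    exact Finset.mem_union_right _ (hfin.mem_toFinset.2 hi)
  choose g hg1 hg2 hg3 using step
  obtain ⟨x₁, hx₁⟩ := (ae_inSupp π).exists
  let s : ℕ → {p : Finset (Site d) × Config A d // InSupp π p.2} := fun n =>
    Nat.rec ⟨(∅, x₁), hx₁⟩ (fun n s => g n s) n
  have hs : ∀ n, s (n + 1) = g n (s n) := fun n => rfl
  have hmono : ∀ n k, (s n).1.1 ⊆ (s (n + k)).1.1 ∧
      ∀ i ∈ (s n).1.1, (s (n + k)).1.2 i = (s n).1.2 i := by
    intro n k
    induction k with
    | zero => exact ⟨subset_rfl, fun _ _ => rfl⟩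
    | succ k ih =>
      rw [← add_assoc, hs]
      refine ⟨ih.1.trans (hg1 _ _), fun i hi => ?_⟩
      rw [hg2 _ _ i (ih.1 hi)]
      exact ih.2 i hi
  obtain ⟨a⟩ := ‹Nonempty A›
  let y : Config A d := fun i => if hi : ∃ n, i ∈ (s n).1.1 then (s (Nat.find hi)).1.2 i else a
  have hy : ∀ n, ∀ i ∈ (s n).1.1, y i = (s n).1.2 i := by
    intro n i hi
    have hex : ∃ n, i ∈ (s n).1.1 := ⟨n, hi⟩
    have h1 : y i = (s (Nat.find hex)).1.2 i := by simp only [y, hex, dif_pos]
    obtain ⟨k, hk⟩ := Nat.exists_eq_add_of_le (Nat.find_min' hex hi)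
    rw [h1]
    have h2 := (hmono (Nat.find hex) k).2 i (Nat.find_spec hex)
    rw [← hk] at h2
    exact h2.symm
  have hlim := tendsto_K h F u y
  rw [Metric.tendsto_atTop] at hlim
  obtain ⟨N, hN⟩ := hlim ε hε
  obtain ⟨t, ht, hcone, hlt⟩ := hg3 N (s N)
  have h1 := hN t ht
  rw [Real.dist_eq] at h1
  have h2 : Φ.K t y (cyl F u) = Φ.K t (g N (s N)).1.2 (cyl F u) :=
    eq_of_siteAlg (g := fun y => Φ.K t y (cyl F u)) (K_local Φ F (cyl_mem_siteAlg F u) t)
      (fun i hi => hy (N + 1) i (by rw [hs]; exact hcone i hi))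
  rw [h2] at h1
  exact absurd h1 (not_lt.2 hlt.le)

/-- Uniform lower bound for the probability of seeing a charged pattern. -/
theorem hit_uniform {Φ : PCA A d} {π : Measure (Config A d)} (h : Φ.Ergodic π)
    (V : Finset (Site d)) (w : V → A) (hw : π (cyl V w) ≠ 0) :
    ∃ S : ℕ, ∀ x, ∃ s, s ≤ S ∧ (π (cyl V w)).toReal / 2 < (Φ.K s x (cyl V w)).toReal := by
  classical
  have hp : IsProbabilityMeasure π := h.1
  have hpos : 0 < (π (cyl V w)).toReal := ENNReal.toReal_pos hw (measure_ne_top _ _)
  let _ : TopologicalSpace A := ⊥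
  have hdisc : DiscreteTopology A := ⟨rfl⟩
  have hcomp : CompactSpace (Config A d) := inferInstance
  have hopen : ∀ s : ℕ, IsOpen {x : Config A d |
      (π (cyl V w)).toReal / 2 < (Φ.K s x (cyl V w)).toReal} := by
    intro s
    rw [isOpen_iff_forall_mem_open]
    intro x hx
    have hfin := cone_finite Φ V.finite_toSet s
    refine ⟨⋂ i ∈ hfin.toFinset, (fun y : Config A d => y i) ⁻¹' {x i}, ?_, ?_, ?_⟩
    · intro y hy
      have h2 : Φ.K s y (cyl V w) = Φ.K s x (cyl V w) :=
        eq_of_siteAlg (g := fun y => Φ.K s y (cyl V w)) (K_local Φ V (cyl_mem_siteAlg V w) s)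
          (fun i hi => by
            have := mem_iInter₂.1 hy i (hfin.mem_toFinset.2 hi)
            simpa using this)
      change (π (cyl V w)).toReal / 2 < (Φ.K s y (cyl V w)).toReal
      rw [h2]
      exact hx
    · exact isOpen_biInter_finset (fun i _ => (isOpen_discrete {x i}).preimage
        (continuous_apply i))
    · simp
  have hcov : (univ : Set (Config A d)) ⊆ ⋃ s : ℕ, {x : Config A d |
      (π (cyl V w)).toReal / 2 < (Φ.K s x (cyl V w)).toReal} := by
    intro x _
    have h1 := (tendsto_K h V w x).eventually (lt_mem_nhds (half_lt_self hpos))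
    obtain ⟨s, hs⟩ := h1.exists
    exact mem_iUnion.2 ⟨s, hs⟩
  obtain ⟨J, hJ⟩ := isCompact_univ.elim_finite_subcover _ hopen hcov
  refine ⟨J.sup id, fun x => ?_⟩
  obtain ⟨s, hs, hx⟩ := mem_iUnion₂.1 (hJ (mem_univ x))
  exact ⟨s, Finset.le_sup (f := id) hs, hx⟩

/-- Uniform convergence on the support. -/
theorem uniform_supp {Φ : PCA A d} {π : Measure (Config A d)} (h : Φ.Ergodic π)
    (F : Finset (Site d)) (u : F → A) (ε : ℝ) (hε : 0 < ε) :
    ∃ T : ℕ, ∀ t, T ≤ t → ∀ x, InSupp π x →
      |(Φ.K t x (cyl F u)).toReal - (π (cyl F u)).toReal| ≤ ε := by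
  classical
  have hp : IsProbabilityMeasure π := h.1
  have hinv := h.2.1
  obtain ⟨V, x₀, T, hx₀, hT⟩ := good_pattern h F u (ε / 2) (by positivity)
  obtain ⟨S, hS⟩ := hit_uniform h V (fun i => x₀ i.1) (hx₀ V)
  set c : ℝ := (π (cyl V (fun i => x₀ i.1))).toReal / 2 with hc
  have hc0 : 0 < c := by
    have : 0 < (π (cyl V (fun i => x₀ i.1))).toReal :=
      ENNReal.toReal_pos (hx₀ V) (measure_ne_top _ _)
    rw [hc]
    positivity
  have hc1 : c ≤ 1 := by
    have : (π (cyl V (fun i => x₀ i.1))).toReal ≤ 1 := measureReal_le_one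
    rw [hc]
    linarith
  have hq0 : 0 ≤ 1 - c := by linarith
  have hle : ∀ t E x, (Φ.K t x E).toReal ≤ 1 := fun t E x => measureReal_le_one
  have hnn : ∀ t E x, 0 ≤ (Φ.K t x E).toReal := fun t E x => ENNReal.toReal_nonneg
  have hm : ∀ (t : ℕ) (E : Set (Config A d)), MeasurableSet E →
      Measurable (fun x => (Φ.K t x E).toReal) := fun t E hE =>
    ((Measure.measurable_coe hE).comp (measurable_K Φ t)).ennreal_toReal
  have hcylF := measurableSet_cyl F u
  have hcylV := measurableSet_cyl V (fun i => x₀ i.1)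
  have key : ∀ j : ℕ, ∀ t, T + j * S ≤ t → ∀ x, InSupp π x →
      |(Φ.K t x (cyl F u)).toReal - (π (cyl F u)).toReal| ≤ ε / 2 + (1 - c) ^ j := by
    intro j
    induction j with
    | zero =>
      intro t _ x _
      have h1 := hle t (cyl F u) x
      have h2 := hnn t (cyl F u) x
      have h3 : (π (cyl F u)).toReal ≤ 1 := measureReal_le_one
      have h4 : 0 ≤ (π (cyl F u)).toReal := ENNReal.toReal_nonneg
      rw [pow_zero, abs_le]
      constructor <;> linarith
    | succ j ih =>
      intro t ht x hx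
      obtain ⟨s, hsS, hs⟩ := hS x
      have hst : s ≤ t := by
        have : S ≤ (j + 1) * S := Nat.le_mul_of_pos_left S (Nat.succ_pos j)
        omega
      obtain ⟨t', rfl⟩ := Nat.exists_eq_add_of_le hst
      have ht' : T + j * S ≤ t' := by
        have : (j + 1) * S = j * S + S := by ring
        omega
      have hTt' : T ≤ t' := by omega
      rw [K_add_apply Φ s t' x hcylF]
      have e1 : ∫ y, (Φ.K t' y (cyl F u)).toReal ∂(Φ.K s x) - (π (cyl F u)).toReal
          = ∫ y, ((Φ.K t' y (cyl F u)).toReal - (π (cyl F u)).toReal) ∂(Φ.K s x) := by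
        rw [integral_sub _ (integrable_const _)]
        · simp
        · refine Integrable.of_bound (hm t' _ hcylF).aestronglyMeasurable 1
            (Eventually.of_forall fun y => ?_)
          rw [Real.norm_eq_abs, abs_of_nonneg (hnn _ _ _)]
          exact hle _ _ _
      rw [e1]
      refine abs_integral_le_integral_abs.trans ?_
      have hind : Integrable ((cyl V (fun i => x₀ i.1))ᶜ.indicator (fun _ : Config A d =>
          (1 - c) ^ j)) (Φ.K s x) := (integrable_const _).indicator hcylV.compl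
      have e2 : ∫ y, |(Φ.K t' y (cyl F u)).toReal - (π (cyl F u)).toReal| ∂(Φ.K s x)
          ≤ ∫ y, (ε / 2 + (cyl V (fun i => x₀ i.1))ᶜ.indicator (fun _ : Config A d =>
            (1 - c) ^ j) y) ∂(Φ.K s x) := by
        refine integral_mono_of_nonneg (Eventually.of_forall fun y => abs_nonneg _)
          ((integrable_const _).add hind) ?_
        filter_upwards [K_ae_inSupp hinv hx s] with y hy
        by_cases hyV : y ∈ cyl V (fun i => x₀ i.1)
        · have h1 := hT t' hTt' y hy (fun i hi => hyV ⟨i, hi⟩)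
          simp only [mem_compl_iff, hyV, not_true_eq_false, not_false_eq_true,
            indicator_of_notMem, add_zero]
          exact h1
        · have h1 := ih t' ht' y hy
          have h2 : y ∈ (cyl V (fun i => x₀ i.1))ᶜ := hyV
          simp only [h2, indicator_of_mem]
          exact h1
      refine e2.trans ?_
      rw [integral_add (integrable_const _) hind, integral_indicator hcylV.compl]
      simp only [integral_const, smul_eq_mul, measureReal_def, Measure.restrict_apply_univ,
        measure_univ, ENNReal.toReal_one, one_mul]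
      have h5 : (Φ.K s x (cyl V (fun i => x₀ i.1))ᶜ).toReal
          = 1 - (Φ.K s x (cyl V (fun i => x₀ i.1))).toReal := by
        have := prob_compl_eq_one_sub hcylV (μ := Φ.K s x)
        rw [this, ENNReal.toReal_sub_of_le prob_le_one ENNReal.one_ne_top, ENNReal.toReal_one]
      rw [h5, pow_succ, mul_comm ((1 - c) ^ j) (1 - c)]
      have h6 : 1 - (Φ.K s x (cyl V (fun i => x₀ i.1))).toReal ≤ 1 - c := by linarith
      have := mul_le_mul_of_nonneg_right h6 (pow_nonneg hq0 j)
      linarith
  have hlim : Tendsto (fun j : ℕ => (1 - c) ^ j) atTop (𝓝 0) :=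
    tendsto_pow_atTop_nhds_zero_of_lt_one hq0 (by linarith)
  obtain ⟨j, hj⟩ := (hlim.eventually (gt_mem_nhds (by positivity : (0 : ℝ) < ε / 2))).exists
  refine ⟨T + j * S, fun t ht x hx => (key j t ht x hx).trans ?_⟩
  linarith

end PCABern
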