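import Pool.Agent.Lib.MP_91598f_pr.Dbar

/-!
# Fast relaxation implies very weak Bernoulli
-/

open MeasureTheory ProbabilityTheory Filter Topology Set
open scoped ENNReal

namespace PCABern

set_option linter.unusedSectionVars false
set_option linter.unusedVariables false

variable {A : Type} [Finite A] [Nonempty A] [MeasurableSpace A] [MeasurableSingletonClass A]
  {d : ℕ}

attribute [instance] prob_K

omit [Finite A] [Nonempty A] [MeasurableSingletonClass A] in
theorem eq_of_siteAlg {S : Set (Site d)} {g : Config A d → ℝ≥0∞}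
    (hg : Measurable[siteAlg A S] g) {x y : Config A d} (h : ∀ i ∈ S, x i = y i) : g x = g y := by
  obtain ⟨g', hg', rfl⟩ := hg.exists_eq_measurable_comp
  simp only [Function.comp]
  congr 1
  funext i
  exact h i.1 i.2

theorem K_congr (Φ : PCA A d) (W : Finset (Site d)) (t : ℕ) {x y : Config A d}
    (h : ∀ i ∈ Φ.cone (W : Set (Site d)) t, x i = y i) {F : Config A d → ℝ} (hF : HamLip W F) :
    ∫ z, F z ∂(Φ.K t x) = ∫ z, F z ∂(Φ.K t y) := by
  classical
  obtain ⟨F', hF', rfl⟩ := hF.measurable'.exists_eq_measurable_comp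
  have hm : Measurable (fun (x : Config A d) (i : (W : Set (Site d))) => x i.1) :=
    measurable_pi_lambda _ (fun i => measurable_pi_apply i.1)
  have e : (Φ.K t x).map (fun (x : Config A d) (i : (W : Set (Site d))) => x i.1)
      = (Φ.K t y).map (fun (x : Config A d) (i : (W : Set (Site d))) => x i.1) := by
    ext E hE
    rw [Measure.map_apply hm hE, Measure.map_apply hm hE]
    exact eq_of_siteAlg (K_local Φ W ⟨E, hE, rfl⟩ t) h
  have e2 : ∀ z, ∫ w, (F' ∘ fun (x : Config A d) (i : (W : Set (Site d))) => x i.1) w ∂(Φ.K t z)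
      = ∫ w, F' w ∂((Φ.K t z).map (fun (x : Config A d) (i : (W : Set (Site d))) => x i.1)) := by
    intro z
    rw [integral_map hm.aemeasurable hF'.aestronglyMeasurable]
    rfl
  rw [e2, e2, e]

theorem cone_finite (Φ : PCA A d) {S : Set (Site d)} (hS : S.Finite) (t : ℕ) :
    (Φ.cone S t).Finite := by
  induction t with
  | zero => exact hS
  | succ t ih =>
    refine ((ih.prod Φ.N.finite_toSet).image (fun p => p.1 + p.2)).subset ?_
    rintro j ⟨i, hi, n, hn, rfl⟩
    exact ⟨(i, n), ⟨hi, hn⟩, rfl⟩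

theorem dbar_K_dep (Φ : PCA A d) (π : Measure (Config A d)) (W : Finset (Site d)) (t : ℕ)
    {x y : Config A d} (h : ∀ i ∈ Φ.cone (W : Set (Site d)) t, x i = y i) :
    dbar W (Φ.K t x) π = dbar W (Φ.K t y) π := by
  unfold dbar
  congr 1
  ext r
  constructor
  · rintro ⟨F, hF, rfl⟩
    exact ⟨F, hF, by rw [K_congr Φ W t h hF]⟩
  · rintro ⟨F, hF, rfl⟩
    exact ⟨F, hF, by rw [K_congr Φ W t h hF]⟩

theorem measurable_dbar_K (Φ : PCA A d) (π : Measure (Config A d)) (W : Finset (Site d)) (t : ℕ) :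
    Measurable (fun x => dbar W (Φ.K t x) π) :=
  (measurable_of_dep (cone_finite Φ W.finite_toSet t)
    (fun _ _ h => dbar_K_dep Φ π W t h)).mono (siteAlg_le _) le_rfl

theorem integrable_dbar_K (Φ : PCA A d) (π : Measure (Config A d)) [IsProbabilityMeasure π]
    (W : Finset (Site d)) (t : ℕ) : Integrable (fun x => dbar W (Φ.K t x) π) π := by
  refine Integrable.of_bound (measurable_dbar_K Φ π W t).aestronglyMeasurable (2 * W.card)
    (Eventually.of_forall fun x => ?_)
  rw [Real.norm_eq_abs, abs_of_nonneg (dbar_nonneg _ _ _)]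
  exact dbar_le_card _ _ _

theorem integrable_integral_K (Φ : PCA A d) (π : Measure (Config A d)) [IsProbabilityMeasure π]
    {W : Finset (Site d)} {F : Config A d → ℝ} (hF : HamLip W F) (t : ℕ) :
    Integrable (fun x => ∫ y, F y ∂(Φ.K t x)) π := by
  obtain ⟨C, hC⟩ := hF.exists_bound
  have hm : Measurable (fun x => ∫ y, F y ∂(Φ.K t x)) :=
    (measurable_of_dep (cone_finite Φ W.finite_toSet t)
      (fun _ _ h => K_congr Φ W t h hF)).mono (siteAlg_le _) le_rfl
  refine Integrable.of_bound hm.aestronglyMeasurable C (Eventually.of_forall fun x => ?_)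
  refine (norm_integral_le_of_norm_le_const (Eventually.of_forall fun y => hC y)).trans ?_
  simp

theorem bind_K {Φ : PCA A d} {π : Measure (Config A d)} (hinv : Φ.evolve π = π) (t : ℕ) :
    π.bind (Φ.K t) = π := by
  rw [← evolve_iterate]
  exact Function.iterate_fixed hinv t

theorem integral_K {Φ : PCA A d} {π : Measure (Config A d)} (hinv : Φ.evolve π = π) (t : ℕ)
    {f : Config A d → ℝ} (hf : Integrable f π) :
    ∫ x, f x ∂π = ∫ x, ∫ y, f y ∂(Φ.K t x) ∂π := by
  let κ : Kernel (Config A d) (Config A d) := ⟨Φ.K t, measurable_K Φ t⟩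
  have e : (κ ∘ₖ Kernel.const Unit π) () = π := by
    rw [Kernel.comp_apply, Kernel.const_apply]
    exact bind_K hinv t
  have h := Kernel.integral_comp (η := κ) (κ := Kernel.const Unit π) (a := ()) (f := f) (by rwa [e])
  rw [e, Kernel.const_apply] at h
  exact h

/-- A natural number bounding the speed of the dependence cones. -/
theorem mem_cone_nat (Φ : PCA A d) : ∃ r : ℕ, ∀ (S : Set (Site d)) (t : ℕ),
    ∀ j ∈ Φ.cone S t, ∃ i ∈ S, ‖j - i‖ ≤ ((r * t : ℕ) : ℝ) := by
  obtain ⟨r, hr, hc⟩ := mem_cone Φ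
  refine ⟨⌈r⌉₊, fun S t j hj => ?_⟩
  obtain ⟨i, hi, h⟩ := hc S t j hj
  refine ⟨i, hi, h.trans ?_⟩
  push_cast
  rw [mul_comm]
  exact mul_le_mul_of_nonneg_right (Nat.le_ceil r) (by positivity)

/-- `r` bounds the speed of the dependence cones of `Φ`. -/
def Speed (Φ : PCA A d) (r : ℕ) : Prop := ∀ (S : Set (Site d)) (t : ℕ),
    ∀ j ∈ Φ.cone S t, ∃ i ∈ S, ‖j - i‖ ≤ ((r * t : ℕ) : ℝ)

theorem winIndep_K {Φ : PCA A d} {r : ℕ} (hr : Speed Φ r) (t : ℕ) {S T : Set (Site d)}
    (h : ∀ i ∈ S, ∀ k ∈ T, ((2 * (r * t) : ℕ) : ℝ) < ‖i - k‖) (x : Config A d) :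
    WinIndep S T (Φ.K t x) := by
  intro E F hE hF
  refine K_indep Φ S T hE hF t (fun s hs => ?_) x
  rw [Set.disjoint_left]
  intro j h1 h2
  obtain ⟨i, hi, h3⟩ := hr _ _ _ h1
  obtain ⟨k, hk, h4⟩ := hr _ _ _ h2
  have h5 := h i hi k hk
  have h6 : ((r * s : ℕ) : ℝ) ≤ ((r * t : ℕ) : ℝ) := by
    exact_mod_cast Nat.mul_le_mul_left r hs.le
  have h7 : ‖i - k‖ ≤ ‖j - k‖ + ‖j - i‖ := by
    have : i - k = (j - k) - (j - i) := by abel
    rw [this]
    exact norm_sub_le _ _
  push_cast at *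
  linarith

theorem dbar_biUnion {Φ : PCA A d} {r : ℕ} (hr : Speed Φ r) (t : ℕ) {ι : Type}
    [DecidableEq ι] (Q : ι → Finset (Site d)) (J : Finset ι)
    (h : ∀ a ∈ J, ∀ b ∈ J, a ≠ b → ∀ i ∈ Q a, ∀ k ∈ Q b,
      ((2 * (r * t) : ℕ) : ℝ) < ‖i - k‖) (x y : Config A d) :
    dbar (J.biUnion Q) (Φ.K t x) (Φ.K t y) ≤ ∑ j ∈ J, dbar (Q j) (Φ.K t x) (Φ.K t y) := by
  classical
  induction J using Finset.induction_on with
  | empty =>
    have := dbar_le_card (∅ : Finset (Site d)) (Φ.K t x) (Φ.K t y)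
    simpa using this
  | insert a J ha ih =>
    rw [Finset.biUnion_insert, Finset.sum_insert ha]
    have hfar : ∀ i ∈ ((Q a : Finset (Site d)) : Set (Site d)),
        ∀ k ∈ ((J.biUnion Q : Finset (Site d)) : Set (Site d)),
        ((2 * (r * t) : ℕ) : ℝ) < ‖i - k‖ := by
      intro i hi k hk
      rw [Finset.mem_coe, Finset.mem_biUnion] at hk
      obtain ⟨b, hb, hk⟩ := hk
      exact h a (Finset.mem_insert_self _ _) b (Finset.mem_insert_of_mem hb)
        (fun hab => ha (hab ▸ hb)) i hi k hk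
    refine (dbar_union _ _ (winIndep_K hr t hfar x) (winIndep_K hr t hfar y)).trans ?_
    have := ih (fun a' ha' b' hb' => h a' (Finset.mem_insert_of_mem ha') b'
      (Finset.mem_insert_of_mem hb'))
    linarith

/-- The core inequality: the distance to equilibrium on a large window is at most the sum of the
distances on well separated sub-windows, plus the uncovered sites. -/
theorem dbar_K_le {Φ : PCA A d} {π : Measure (Config A d)} [IsProbabilityMeasure π]
    (hinv : Φ.evolve π = π) {r : ℕ} (hr : Speed Φ r) (t : ℕ) {ι : Type}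
    [DecidableEq ι] (Q : ι → Finset (Site d)) (J : Finset ι)
    (h : ∀ a ∈ J, ∀ b ∈ J, a ≠ b → ∀ i ∈ Q a, ∀ k ∈ Q b,
      ((2 * (r * t) : ℕ) : ℝ) < ‖i - k‖) (W : Finset (Site d)) (hW : J.biUnion Q ⊆ W)
    (x : Config A d) :
    dbar W (Φ.K t x) π ≤ ∑ j ∈ J, (dbar (Q j) (Φ.K t x) π + ∫ y, dbar (Q j) (Φ.K t y) π ∂π)
      + 2 * ((W \ J.biUnion Q).card : ℝ) := by
  refine dbar_le (fun F hF => ?_)
  have h1 : ∀ y, ∫ z, F z ∂(Φ.K t x) - ∫ z, F z ∂(Φ.K t y)
      ≤ ∑ j ∈ J, (dbar (Q j) (Φ.K t x) π + dbar (Q j) (Φ.K t y) π)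
        + 2 * ((W \ J.biUnion Q).card : ℝ) := by
    intro y
    refine (le_dbar hF _ _).trans ((dbar_le_add_card hW _ _).trans ?_)
    have h2 : ∑ j ∈ J, dbar (Q j) (Φ.K t x) (Φ.K t y)
        ≤ ∑ j ∈ J, (dbar (Q j) (Φ.K t x) π + dbar (Q j) (Φ.K t y) π) := by
      refine Finset.sum_le_sum (fun j _ => ?_)
      have h3 := dbar_triangle (Q j) (Φ.K t x) π (Φ.K t y)
      have h4 := dbar_symm (Q j) π (Φ.K t y)
      linarith
    have h5 := dbar_biUnion hr t Q J h x y
    linarith
  have hint : Integrable (fun y => ∑ j ∈ J, dbar (Q j) (Φ.K t y) π) π :=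
    integrable_finset_sum _ (fun j _ => integrable_dbar_K Φ π (Q j) t)
  have h2 : ∫ y, ((∫ z, F z ∂(Φ.K t x) - ∑ j ∈ J, dbar (Q j) (Φ.K t x) π
        - 2 * ((W \ J.biUnion Q).card : ℝ)) - ∑ j ∈ J, dbar (Q j) (Φ.K t y) π) ∂π
      ≤ ∫ y, ∫ z, F z ∂(Φ.K t y) ∂π := by
    refine integral_mono ((integrable_const _).sub hint) (integrable_integral_K Φ π hF t)
      (fun y => ?_)
    have := h1 y
    rw [Finset.sum_add_distrib] at this
    simp only
    linarith
  rw [integral_sub (integrable_const _) hint,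
    integral_finset_sum _ (fun j _ => integrable_dbar_K Φ π (Q j) t),
    ← integral_K hinv t (hF.integrable π)] at h2
  simp only [integral_const, probReal_univ, smul_eq_mul, one_mul] at h2
  rw [Finset.sum_add_distrib]
  linarith

theorem evolve_iterate_shift (Φ : PCA A d) (v : Site d) (t : ℕ) (μ : Measure (Config A d)) :
    Φ.evolve^[t] (μ.map (shift v)) = (Φ.evolve^[t] μ).map (shift v) := by
  induction t generalizing μ with
  | zero => rfl
  | succ t ih => rw [Function.iterate_succ_apply, Function.iterate_succ_apply, evolve_shift, ih]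

theorem K_shift (Φ : PCA A d) (v : Site d) (t : ℕ) (x : Config A d) :
    (Φ.K t x).map (shift v) = Φ.K t (shift v x) := by
  rw [K_eq_evolve, K_eq_evolve, ← evolve_iterate_shift, Measure.map_dirac' (measurable_shift v)]

theorem dbar_K_shift {Φ : PCA A d} {π : Measure (Config A d)} [IsProbabilityMeasure π]
    (hshift : ∀ v : Site d, π.map (shift v) = π) {W W' : Finset (Site d)} (v : Site d)
    (h : ∀ i ∈ W', i - v ∈ W) (t : ℕ) (x : Config A d) :
    dbar W' (Φ.K t x) π ≤ dbar W (Φ.K t (shift v x)) π := by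
  have := dbar_shift_le v h (Φ.K t x) π
  rwa [K_shift, hshift] at this

theorem integral_dbar_K_shift {Φ : PCA A d} {π : Measure (Config A d)} [IsProbabilityMeasure π]
    (hshift : ∀ v : Site d, π.map (shift v) = π) {W W' : Finset (Site d)} (v : Site d)
    (h : ∀ i ∈ W', i - v ∈ W) (t : ℕ) :
    ∫ x, dbar W' (Φ.K t x) π ∂π ≤ ∫ x, dbar W (Φ.K t x) π ∂π := by
  have e : ∫ x, dbar W (Φ.K t x) π ∂π = ∫ x, dbar W (Φ.K t (shift v x)) π ∂π := by
    conv_lhs => rw [← hshift v]
    rw [integral_map (measurable_shift v).aemeasurable]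
    · simp only [hshift v]
    · exact (measurable_dbar_K Φ _ W t).aestronglyMeasurable
  rw [e]
  refine integral_mono (integrable_dbar_K Φ π W' t) ?_ (fun x => dbar_K_shift hshift v h t x)
  refine Integrable.of_bound ((measurable_dbar_K Φ π W t).comp
    (measurable_shift v)).aestronglyMeasurable (2 * W.card) (Eventually.of_forall fun x => ?_)
  rw [Real.norm_eq_abs, abs_of_nonneg (dbar_nonneg _ _ _)]
  exact dbar_le_card _ _ _

end PCABern
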